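import Mathlib

set_option autoImplicit false
set_option linter.unusedSectionVars false

/-!
Restriction of integer polynomials in `n` variables to a line: degrees and sizes of coefficients.
-/

namespace Pool.Agent.Helper12_FV

open Polynomial

variable {n : ℕ}

/-- The restriction of a polynomial to the line `α + β X`. -/
noncomputable def onl {S : Type} [CommRing S] (α β : Fin n → S) :
    MvPolynomial (Fin n) ℤ →+* S[X] :=
  MvPolynomial.eval₂Hom (Int.castRingHom S[X]) (fun s => C (α s) + C (β s) * X)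

/-- The sum of the absolute values of the coefficients. -/
noncomputable def len (f : MvPolynomial (Fin n) ℤ) : ℕ := ∑ d ∈ f.support, (f.coeff d).natAbs

/-- The leading form. -/
noncomputable def topp (f : MvPolynomial (Fin n) ℤ) : MvPolynomial (Fin n) ℤ :=
  MvPolynomial.homogeneousComponent f.totalDegree f

section general

variable {S : Type} [CommRing S]

lemma onl_C (α β : Fin n → S) (z : ℤ) : onl α β (MvPolynomial.C z) = C (z : S) := by
  unfold onl
  rw [MvPolynomial.coe_eval₂Hom, MvPolynomial.eval₂_C]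
  simp

lemma onl_X (α β : Fin n → S) (s : Fin n) :
    onl α β (MvPolynomial.X s) = C (α s) + C (β s) * X := by
  unfold onl
  rw [MvPolynomial.coe_eval₂Hom, MvPolynomial.eval₂_X]

lemma map_onl {S' : Type} [CommRing S'] (φ : S →+* S') (α β : Fin n → S)
    (f : MvPolynomial (Fin n) ℤ) :
    (onl α β f).map φ = onl (fun s => φ (α s)) (fun s => φ (β s)) f := by
  have h : (mapRingHom φ).comp (onl α β) = onl (fun s => φ (α s)) (fun s => φ (β s)) := by
    apply MvPolynomial.ringHom_ext
    · intro z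
      simp
    · intro s
      simp [onl_X]
  exact RingHom.congr_fun h f

lemma eval_zero_onl (α β : Fin n → S) (f : MvPolynomial (Fin n) ℤ) :
    (onl α β f).eval 0 = MvPolynomial.eval₂ (Int.castRingHom S) α f := by
  have h : (evalRingHom (0 : S)).comp (onl α β) =
      MvPolynomial.eval₂Hom (Int.castRingHom S) α := by
    apply MvPolynomial.ringHom_ext
    · intro z
      simp
    · intro s
      simp [onl_X]
  exact RingHom.congr_fun h f

lemma onl_monomial (α β : Fin n → S) (d : Fin n →₀ ℕ) (z : ℤ) :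
    onl α β (MvPolynomial.monomial d z) = C (z : S) * ∏ s, (C (α s) + C (β s) * X) ^ d s := by
  unfold onl
  rw [MvPolynomial.coe_eval₂Hom, MvPolynomial.eval₂_monomial, Finsupp.prod_fintype]
  · simp
  · intro s; simp

lemma onl_eq_sum (α β : Fin n → S) (f : MvPolynomial (Fin n) ℤ) :
    onl α β f = ∑ d ∈ f.support, C ((f.coeff d : ℤ) : S) *
      ∏ s, (C (α s) + C (β s) * X) ^ d s := by
  conv_lhs => rw [MvPolynomial.as_sum f]
  rw [map_sum]
  exact Finset.sum_congr rfl fun d _ => onl_monomial α β d _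

lemma natDegree_lin_le (a b : S) : (C a + C b * X : S[X]).natDegree ≤ 1 := by
  rw [add_comm]
  exact natDegree_linear_le

lemma natDegree_factor_le (α β : Fin n → S) (d : Fin n →₀ ℕ) (s : Fin n) :
    ((C (α s) + C (β s) * X) ^ d s : S[X]).natDegree ≤ d s := by
  refine natDegree_pow_le.trans ?_
  exact (Nat.mul_le_mul_left _ (natDegree_lin_le _ _)).trans (by rw [mul_one])

lemma natDegree_prod_factor_le (α β : Fin n → S) (d : Fin n →₀ ℕ) :
    (∏ s, (C (α s) + C (β s) * X) ^ d s : S[X]).natDegree ≤ d.degree := by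
  refine (natDegree_prod_le _ _).trans ?_
  rw [Finsupp.degree_eq_sum]
  exact Finset.sum_le_sum fun s _ => natDegree_factor_le α β d s

lemma coeff_prod_factor (α β : Fin n → S) (d : Fin n →₀ ℕ) :
    (∏ s, (C (α s) + C (β s) * X) ^ d s : S[X]).coeff d.degree = ∏ s, β s ^ d s := by
  have h : ∀ T : Finset (Fin n), (∏ s ∈ T, (C (α s) + C (β s) * X) ^ d s : S[X]).coeff
      (∑ s ∈ T, d s) = ∏ s ∈ T, β s ^ d s := by
    classical
    intro T
    induction T using Finset.induction_on with
    | empty => simp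
    | insert s T hs ih =>
      rw [Finset.prod_insert hs, Finset.sum_insert hs, Finset.prod_insert hs, ← ih]
      have h1 : ((C (α s) + C (β s) * X) ^ d s : S[X]).coeff (d s) = β s ^ d s := by
        have := coeff_pow_of_natDegree_le (m := d s) (natDegree_lin_le (α s) (β s))
        rw [mul_one] at this
        rw [this]
        simp
      rw [← h1]
      apply coeff_mul_add_eq_of_natDegree_le
      · exact natDegree_factor_le α β d s
      · refine (natDegree_prod_le _ _).trans ?_
        exact Finset.sum_le_sum fun s _ => natDegree_factor_le α β d s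
  rw [Finsupp.degree_eq_sum]
  exact h Finset.univ

lemma natDegree_onl_le (α β : Fin n → S) (f : MvPolynomial (Fin n) ℤ) :
    (onl α β f).natDegree ≤ f.totalDegree := by
  rw [onl_eq_sum]
  apply natDegree_sum_le_of_forall_le
  intro d hd
  refine natDegree_mul_le.trans ?_
  rw [natDegree_C, zero_add]
  refine (natDegree_prod_factor_le α β d).trans ?_
  have := MvPolynomial.le_totalDegree hd
  rw [Finsupp.degree_eq_sum]
  rwa [Finsupp.sum_fintype _ _ (fun _ => rfl)] at this

lemma coeff_onl (α β : Fin n → S) (f : MvPolynomial (Fin n) ℤ) :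
    (onl α β f).coeff f.totalDegree = MvPolynomial.eval₂ (Int.castRingHom S) β (topp f) := by
  classical
  unfold topp
  rw [MvPolynomial.homogeneousComponent_apply, MvPolynomial.eval₂_sum, onl_eq_sum,
    finsetSum_coeff, ← Finset.sum_filter_add_sum_filter_not f.support
      (fun d => d.degree = f.totalDegree)]
  have h2 : ∑ d ∈ f.support with ¬ d.degree = f.totalDegree,
      (C ((f.coeff d : ℤ) : S) * ∏ s, (C (α s) + C (β s) * X) ^ d s).coeff f.totalDegree = 0 := by
    apply Finset.sum_eq_zero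
    intro d hd
    rw [Finset.mem_filter] at hd
    apply coeff_eq_zero_of_natDegree_lt
    refine lt_of_le_of_lt natDegree_mul_le ?_
    rw [natDegree_C, zero_add]
    refine lt_of_le_of_lt (natDegree_prod_factor_le α β d) ?_
    have := MvPolynomial.le_totalDegree hd.1
    have h3 : d.degree ≤ f.totalDegree := by
      rw [Finsupp.degree_eq_sum]
      rwa [Finsupp.sum_fintype _ _ (fun _ => rfl)] at this
    exact lt_of_le_of_ne h3 hd.2
  rw [h2, add_zero]
  apply Finset.sum_congr rfl
  intro d hd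
  rw [Finset.mem_filter] at hd
  rw [coeff_C_mul, ← hd.2, coeff_prod_factor, MvPolynomial.eval₂_monomial, Finsupp.prod_fintype]
  · simp
  · intro s; simp

end general

lemma topp_ne_zero {f : MvPolynomial (Fin n) ℤ} (hf : f ≠ 0) : topp f ≠ 0 := by
  classical
  obtain ⟨d, hd, hdeg⟩ : ∃ d ∈ f.support, (d.sum fun _ e => e) = f.totalDegree := by
    have hne : f.support.Nonempty := MvPolynomial.support_nonempty.2 hf
    obtain ⟨d, hd, h⟩ := Finset.exists_mem_eq_sup f.support hne (fun s => s.sum fun _ e => e)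
    exact ⟨d, hd, h.symm⟩
  intro h0
  have h1 := congrArg (MvPolynomial.coeff d) h0
  unfold topp at h1
  rw [MvPolynomial.coeff_homogeneousComponent, if_pos, MvPolynomial.coeff_zero] at h1
  · exact MvPolynomial.mem_support_iff.1 hd h1
  · rw [← hdeg]
    rfl

lemma totalDegree_topp_le (f : MvPolynomial (Fin n) ℤ) : (topp f).totalDegree ≤ f.totalDegree :=
  (MvPolynomial.homogeneousComponent_isHomogeneous _ _).totalDegree_le

/-! ### Total degree of the coefficients -/

/-- All coefficients have total degree at most `d`. -/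
def CB (d : ℕ) (P : (MvPolynomial (Fin n) ℤ)[X]) : Prop := ∀ i, (P.coeff i).totalDegree ≤ d

lemma CB.mono {d d' : ℕ} {P : (MvPolynomial (Fin n) ℤ)[X]} (h : CB d P) (hd : d ≤ d') : CB d' P :=
  fun i => (h i).trans hd

lemma CB.mul {d d' : ℕ} {P Q : (MvPolynomial (Fin n) ℤ)[X]} (hP : CB d P) (hQ : CB d' Q) :
    CB (d + d') (P * Q) := by
  intro i
  rw [coeff_mul]
  apply MvPolynomial.totalDegree_finsetSum_le
  intro x _
  exact (MvPolynomial.totalDegree_mul _ _).trans (add_le_add (hP _) (hQ _))

lemma CB.one : CB (n := n) 0 1 := by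
  intro i
  rw [coeff_one]
  split_ifs <;> simp

lemma CB.pow {d : ℕ} {P : (MvPolynomial (Fin n) ℤ)[X]} (hP : CB d P) (e : ℕ) :
    CB (e * d) (P ^ e) := by
  induction e with
  | zero => rw [pow_zero, zero_mul]; exact CB.one
  | succ e ih => rw [pow_succ, add_mul, one_mul]; exact ih.mul hP

lemma CB.prod {T : Finset (Fin n)} {d : Fin n → ℕ} {P : Fin n → (MvPolynomial (Fin n) ℤ)[X]}
    (hP : ∀ s, CB (d s) (P s)) : CB (∑ s ∈ T, d s) (∏ s ∈ T, P s) := by
  classical
  induction T using Finset.induction_on with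
  | empty => rw [Finset.sum_empty, Finset.prod_empty]; exact CB.one
  | insert s T hs ih => rw [Finset.sum_insert hs, Finset.prod_insert hs]; exact (hP s).mul ih

lemma CB.sum {ι : Type} {T : Finset ι} {d : ℕ} {P : ι → (MvPolynomial (Fin n) ℤ)[X]}
    (hP : ∀ s ∈ T, CB d (P s)) : CB d (∑ s ∈ T, P s) := by
  intro i
  rw [finsetSum_coeff]
  exact MvPolynomial.totalDegree_finsetSum_le fun s hs => hP s hs i

lemma CB.C {d : ℕ} {a : MvPolynomial (Fin n) ℤ} (ha : a.totalDegree ≤ d) :
    CB d (Polynomial.C a) := by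
  intro i
  rw [coeff_C]
  split_ifs
  · exact ha
  · simp

lemma CB_onl (β : Fin n → ℤ) (f : MvPolynomial (Fin n) ℤ) :
    CB f.totalDegree (onl (fun s => MvPolynomial.X s) (fun s => MvPolynomial.C (β s)) f) := by
  rw [onl_eq_sum]
  apply CB.sum
  intro d hd
  have h1 : CB (n := n) 0 (Polynomial.C (((f.coeff d : ℤ) : MvPolynomial (Fin n) ℤ))) := by
    apply CB.C
    have : ((f.coeff d : ℤ) : MvPolynomial (Fin n) ℤ) = MvPolynomial.C (f.coeff d) := by simp
    rw [this, MvPolynomial.totalDegree_C]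
  have h2 : CB (n := n) (∑ s, d s * 1) (∏ s, (Polynomial.C (MvPolynomial.X s) +
      Polynomial.C (MvPolynomial.C (β s)) * X) ^ d s) := by
    apply CB.prod
    intro s
    apply CB.pow
    intro i
    rw [coeff_add, coeff_C, coeff_C_mul, coeff_X]
    refine (MvPolynomial.totalDegree_add _ _).trans (max_le ?_ ?_)
    · split_ifs
      · rw [MvPolynomial.totalDegree_X]
      · simp
    · split_ifs
      · rw [mul_one, MvPolynomial.totalDegree_C]; exact Nat.zero_le _
      · simp
  refine (h1.mul h2).mono ?_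
  rw [zero_add]
  simp only [mul_one]
  have := MvPolynomial.le_totalDegree hd
  rwa [Finsupp.sum_fintype _ _ (fun _ => rfl)] at this

lemma totalDegree_det_le {l D : ℕ} (M : Matrix (Fin l) (Fin l) (MvPolynomial (Fin n) ℤ))
    (h : ∀ i j, (M i j).totalDegree ≤ D) : M.det.totalDegree ≤ l * D := by
  rw [Matrix.det_apply']
  apply MvPolynomial.totalDegree_finsetSum_le
  intro σ _
  refine (MvPolynomial.totalDegree_mul _ _).trans ?_
  have h1 : (((Equiv.Perm.sign σ : ℤ) : MvPolynomial (Fin n) ℤ)).totalDegree = 0 := by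
    have : (((Equiv.Perm.sign σ : ℤ) : MvPolynomial (Fin n) ℤ)) =
        MvPolynomial.C ((Equiv.Perm.sign σ : ℤ)) := by simp
    rw [this, MvPolynomial.totalDegree_C]
  rw [h1, zero_add]
  refine (MvPolynomial.totalDegree_finsetProd _ _).trans ?_
  refine (Finset.sum_le_sum fun i _ => h (σ i) i).trans ?_
  simp

/-! ### Sizes of the coefficients -/

/-- Domination of the absolute values of the coefficients. -/
def Dom (P : ℤ[X]) (Q : ℕ[X]) : Prop := ∀ i, (P.coeff i).natAbs ≤ Q.coeff i

lemma natAbs_sum_le {ι : Type} (s : Finset ι) (f : ι → ℤ) :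
    (∑ i ∈ s, f i).natAbs ≤ ∑ i ∈ s, (f i).natAbs := by
  classical
  induction s using Finset.induction_on with
  | empty => simp
  | insert a s ha ih =>
    rw [Finset.sum_insert ha, Finset.sum_insert ha]
    exact (Int.natAbs_add_le _ _).trans (Nat.add_le_add_left ih _)

lemma Dom.mul {P P' : ℤ[X]} {Q Q' : ℕ[X]} (h : Dom P Q) (h' : Dom P' Q') :
    Dom (P * P') (Q * Q') := by
  intro i
  rw [coeff_mul, coeff_mul]
  refine (natAbs_sum_le _ _).trans (Finset.sum_le_sum fun x _ => ?_)
  rw [Int.natAbs_mul]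
  exact Nat.mul_le_mul (h _) (h' _)

lemma Dom.one : Dom 1 1 := by
  intro i
  rw [coeff_one, coeff_one]
  split_ifs <;> simp

lemma Dom.pow {P : ℤ[X]} {Q : ℕ[X]} (h : Dom P Q) (e : ℕ) : Dom (P ^ e) (Q ^ e) := by
  induction e with
  | zero => rw [pow_zero, pow_zero]; exact Dom.one
  | succ e ih => rw [pow_succ, pow_succ]; exact ih.mul h

lemma coeff_le_eval_one (Q : ℕ[X]) (i : ℕ) : Q.coeff i ≤ Q.eval 1 := by
  rw [eval_eq_sum_range]
  simp only [one_pow, mul_one]
  by_cases h : i ∈ Finset.range (Q.natDegree + 1)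
  · exact Finset.single_le_sum (f := fun i => Q.coeff i) (fun _ _ => Nat.zero_le _) h
  · rw [Finset.mem_range] at h
    rw [coeff_eq_zero_of_natDegree_lt (by omega)]
    exact Nat.zero_le _

lemma natAbs_coeff_onl_le (α β : Fin n → ℤ) (M D : ℕ) (hM : 1 ≤ M) (hα : ∀ s, (α s).natAbs ≤ M)
    (hβ : ∀ s, (β s).natAbs ≤ M) (f : MvPolynomial (Fin n) ℤ) (hf : f.totalDegree ≤ D) (i : ℕ) :
    ((onl α β f).coeff i).natAbs ≤ len f * (2 * M) ^ D := by
  rw [onl_eq_sum, finsetSum_coeff]
  refine (natAbs_sum_le _ _).trans ?_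
  unfold len
  rw [Finset.sum_mul]
  apply Finset.sum_le_sum
  intro d hd
  rw [coeff_C_mul, Int.natAbs_mul]
  apply Nat.mul_le_mul (by simp)
  have h1 : Dom (∏ s, (C (α s) + C (β s) * X) ^ d s) (∏ s, (C M + C M * X) ^ d s) := by
    have : ∀ T : Finset (Fin n), Dom (∏ s ∈ T, (C (α s) + C (β s) * X) ^ d s)
        (∏ s ∈ T, (C M + C M * X) ^ d s) := by
      classical
      intro T
      induction T using Finset.induction_on with
      | empty => rw [Finset.prod_empty, Finset.prod_empty]; exact Dom.one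
      | insert s T hs ih =>
        rw [Finset.prod_insert hs, Finset.prod_insert hs]
        refine Dom.mul (Dom.pow ?_ _) ih
        intro i
        rw [coeff_add, coeff_add, coeff_C, coeff_C, coeff_C_mul, coeff_C_mul, coeff_X, coeff_X]
        rcases i with _ | _ | i
        · simpa using hα s
        · simpa using hβ s
        · simp
    exact this Finset.univ
  refine (h1 i).trans ((coeff_le_eval_one _ _).trans ?_)
  rw [eval_prod]
  simp only [eval_pow, eval_add, eval_C, eval_mul, eval_X, mul_one]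
  rw [Finset.prod_pow_eq_pow_sum, ← two_mul]
  apply Nat.pow_le_pow_right (by omega)
  refine le_trans ?_ hf
  have := MvPolynomial.le_totalDegree hd
  rwa [Finsupp.sum_fintype _ _ (fun _ => rfl)] at this

lemma natAbs_eval_le (α : Fin n → ℤ) (M D : ℕ) (hM : 1 ≤ M) (hα : ∀ s, (α s).natAbs ≤ M)
    (f : MvPolynomial (Fin n) ℤ) (hf : f.totalDegree ≤ D) :
    (MvPolynomial.eval α f).natAbs ≤ len f * (2 * M) ^ D := by
  have h := natAbs_coeff_onl_le α 0 M D hM hα (fun s => by simp) f hf 0
  rw [coeff_zero_eq_eval_zero, eval_zero_onl] at h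
  exact h

lemma natAbs_eval_topp_le (β : Fin n → ℤ) (M D : ℕ) (hM : 1 ≤ M) (hβ : ∀ s, (β s).natAbs ≤ M)
    (f : MvPolynomial (Fin n) ℤ) (hf : f.totalDegree ≤ D) :
    (MvPolynomial.eval β (topp f)).natAbs ≤ len f * (2 * M) ^ D := by
  have h := natAbs_coeff_onl_le 0 β M D hM (fun s => by simp) hβ f hf f.totalDegree
  rw [coeff_onl] at h
  exact h

lemma natAbs_det_le {l E : ℕ} (M : Matrix (Fin l) (Fin l) ℤ) (h : ∀ i j, (M i j).natAbs ≤ E) :
    M.det.natAbs ≤ l.factorial * E ^ l := by
  rw [Matrix.det_apply']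
  refine (natAbs_sum_le _ _).trans ?_
  have h1 : ∀ σ ∈ (Finset.univ : Finset (Equiv.Perm (Fin l))),
      (((Equiv.Perm.sign σ : ℤ)) * ∏ i, M (σ i) i).natAbs ≤ E ^ l := by
    intro σ _
    rw [Int.natAbs_mul]
    have h2 : ((Equiv.Perm.sign σ : ℤ)).natAbs = 1 := by simp
    have h3 : (∏ i, M (σ i) i).natAbs = ∏ i, (M (σ i) i).natAbs := by
      exact map_prod Int.natAbsHom _ _
    rw [h2, one_mul, h3]
    refine (Finset.prod_le_prod' fun i _ => h (σ i) i).trans ?_
    simp
  refine (Finset.sum_le_sum h1).trans ?_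
  rw [Finset.sum_const, Finset.card_univ, Fintype.card_perm, Fintype.card_fin, smul_eq_mul]

end Pool.Agent.Helper12_FV
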