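import Mathlib

set_option autoImplicit false
set_option linter.unusedSectionVars false

/-!
Resultants of relatively prime polynomials over a factorial domain; restriction of relatively prime
polynomials in several variables to a line through the generic point.
-/

namespace Pool.Agent.Helper12_FV

open Polynomial

/-- The resultant of two relatively prime polynomials over a factorial domain is nonzero. -/
theorem resultant_ne_zero_of_isRelPrime {R : Type} [CommRing R] [IsDomain R]
    [UniqueFactorizationMonoid R] (f g : R[X]) (hf : f ≠ 0) (h : IsRelPrime f g) :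
    resultant f g ≠ 0 := by
  intro h0
  unfold resultant at h0
  set m := f.natDegree with hm
  set n := g.natDegree with hn
  let b₁ := ((degreeLT.basis R m).prod (degreeLT.basis R n)).reindex finSumFinEquiv
  let b₂ := degreeLT.basis R (m + n)
  obtain ⟨v, hv, hv0⟩ := Matrix.exists_mulVec_eq_zero_iff.2 h0
  rw [← toMatrix_sylvesterMap' f g hm.ge hn.ge] at hv0
  set w := b₁.equivFun.symm v with hw
  have hw0 : w ≠ 0 := by
    intro h1
    apply hv
    have h2 := congrArg b₁.equivFun h1
    rw [hw, LinearEquiv.apply_symm_apply, map_zero] at h2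
    exact h2
  have h3 : sylvesterMap f g hm.ge hn.ge w = 0 := by
    apply b₂.repr.injective
    ext i
    have h4 := LinearMap.toMatrix_mulVec_repr b₁ b₂ (sylvesterMap f g hm.ge hn.ge) w
    have h5 : (b₁.repr w : Fin (m + n) → R) = v := by
      rw [hw]
      exact b₁.equivFun.apply_symm_apply v
    rw [h5] at h4
    have h6 := congrFun h4 i
    rw [← h6]
    have h7 := congrFun hv0 i
    rw [h7]
    simp
  have h4 := congrArg (fun x : degreeLT R (m + n) => (x : R[X])) h3
  simp only [sylvesterMap_apply_coe, ZeroMemClass.coe_zero] at h4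
  have h5 : f ∣ g * (w.1 : R[X]) := ⟨-(w.2 : R[X]), by linear_combination h4⟩
  have h6 : f ∣ (w.1 : R[X]) := h.dvd_of_dvd_mul_left h5
  have h7 : (w.1 : R[X]) = 0 := by
    by_contra hne
    have h8 := natDegree_le_of_dvd h6 hne
    have h9 := Polynomial.mem_degreeLT.1 w.1.2
    rw [degree_eq_natDegree hne] at h9
    have h10 : (w.1 : R[X]).natDegree < m := by exact_mod_cast h9
    omega
  rw [h7, mul_zero, add_zero] at h4
  have h8 : (w.2 : R[X]) = 0 := (mul_eq_zero.1 h4).resolve_left hf
  apply hw0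
  ext1
  · exact Subtype.ext h7
  · exact Subtype.ext h8

section shear

variable {n : ℕ}

/-- The substitution `x_s ↦ x_s + σ β_s X`. -/
noncomputable def psi (β : Fin n → ℤ) (σ : ℤ) :
    MvPolynomial (Fin n) ℤ →ₐ[ℤ] (MvPolynomial (Fin n) ℤ)[X] :=
  MvPolynomial.aeval fun s => C (MvPolynomial.X s) + C (MvPolynomial.C (σ * β s)) * X

/-- The extension of `psi` fixing `X`. -/
noncomputable def tau (β : Fin n → ℤ) (σ : ℤ) :
    (MvPolynomial (Fin n) ℤ)[X] →+* (MvPolynomial (Fin n) ℤ)[X] :=
  eval₂RingHom (psi β σ : MvPolynomial (Fin n) ℤ →+* _) X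

lemma tau_C (β : Fin n → ℤ) (σ : ℤ) (g : MvPolynomial (Fin n) ℤ) :
    tau β σ (C g) = psi β σ g := by
  unfold tau
  rw [coe_eval₂RingHom, eval₂_C]
  rfl

lemma tau_X (β : Fin n → ℤ) (σ : ℤ) : tau β σ X = X := by
  unfold tau
  rw [coe_eval₂RingHom, eval₂_X]

lemma psi_X (β : Fin n → ℤ) (σ : ℤ) (s : Fin n) :
    psi β σ (MvPolynomial.X s) = C (MvPolynomial.X s) + C (MvPolynomial.C (σ * β s)) * X := by
  unfold psi
  rw [MvPolynomial.aeval_X]

lemma psi_C (β : Fin n → ℤ) (σ : ℤ) (a : ℤ) :
    psi β σ (MvPolynomial.C a) = C (MvPolynomial.C a) :=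
  (psi β σ).commutes a

lemma tau_psi (β : Fin n → ℤ) (σ : ℤ) (g : MvPolynomial (Fin n) ℤ) :
    tau β (-σ) (psi β σ g) = C g := by
  have h : (tau β (-σ)).comp (psi β σ : MvPolynomial (Fin n) ℤ →+* _) =
      (C : MvPolynomial (Fin n) ℤ →+* _) := by
    apply MvPolynomial.ringHom_ext
    · intro a
      simp only [RingHom.comp_apply, RingHom.coe_coe, psi_C, tau_C]
    · intro s
      simp only [RingHom.comp_apply, RingHom.coe_coe, psi_X, map_add, map_mul, tau_C, tau_X, psi_C]
      rw [map_neg, map_neg]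
      ring
  have := RingHom.congr_fun h g
  exact this

lemma tau_tau (β : Fin n → ℤ) (σ : ℤ) (P : (MvPolynomial (Fin n) ℤ)[X]) :
    tau β (-σ) (tau β σ P) = P := by
  have h : (tau β (-σ)).comp (tau β σ) = RingHom.id _ := by
    apply Polynomial.ringHom_ext
    · intro g
      simp only [RingHom.comp_apply, RingHom.id_apply, tau_C]
      rw [tau_psi]
    · simp only [RingHom.comp_apply, RingHom.id_apply, tau_X]
  exact RingHom.congr_fun h P

lemma isRelPrime_psi (β : Fin n → ℤ) (g g' : MvPolynomial (Fin n) ℤ) (hg : g ≠ 0)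
    (h : IsRelPrime g g') : IsRelPrime (psi β 1 g) (psi β 1 g') := by
  intro d hd hd'
  have h1 : tau β (-1) d ∣ C g := by
    have := map_dvd (tau β (-1)) hd
    rwa [tau_psi] at this
  have h2 : tau β (-1) d ∣ C g' := by
    have := map_dvd (tau β (-1)) hd'
    rwa [tau_psi] at this
  have h3 : (tau β (-1) d).natDegree = 0 := by
    have := natDegree_le_of_dvd h1 (C_ne_zero.2 hg)
    rw [natDegree_C] at this
    omega
  obtain ⟨c, hc⟩ := natDegree_eq_zero.1 h3
  rw [← hc] at h1 h2
  have h6 : c ∣ g := by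
    have := (C_dvd_iff_dvd_coeff _ _).1 h1 0
    rwa [coeff_C_zero] at this
  have h7 : c ∣ g' := by
    have := (C_dvd_iff_dvd_coeff _ _).1 h2 0
    rwa [coeff_C_zero] at this
  have h4 : IsUnit c := h h6 h7
  have h5 : d = tau β (-(-1)) (C c) := by
    rw [hc, tau_tau]
  rw [h5]
  exact (isUnit_C.2 h4).map _

end shear

end Pool.Agent.Helper12_FV
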