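import Mathlib
import Pool.Agent.Helper12_FV.Res
import Pool.Agent.Helper12_FV.Line

set_option autoImplicit false
set_option linter.unusedSectionVars false

/-!
Existence of a line with small integer coordinates on which pairwise relatively prime polynomials
stay relatively prime.
-/

namespace Pool.Agent.Helper12_FV

open Polynomial

variable {n : ℕ}

theorem exists_point {R : Type} [CommRing R] [IsDomain R] (Q : MvPolynomial (Fin n) R) (hQ : Q ≠ 0)
    (S : Finset R) (hS : Q.totalDegree < S.card) :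
    ∃ x : Fin n → R, (∀ r, x r ∈ S) ∧ MvPolynomial.eval x Q ≠ 0 := by
  by_contra hcon
  push Not at hcon
  apply hQ
  apply MvPolynomial.eq_zero_of_eval_zero_at_prod_finset Q (fun _ => S)
  · intro i
    exact lt_of_le_of_lt (MvPolynomial.degreeOf_le_totalDegree Q i) hS
  · exact hcon

/-- The resultant along the direction `β` at the generic point. -/
noncomputable def rho (β : Fin n → ℤ) (f g : MvPolynomial (Fin n) ℤ) : MvPolynomial (Fin n) ℤ :=
  resultant (onl (fun s => MvPolynomial.X s) (fun s => MvPolynomial.C (β s)) f)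
    (onl (fun s => MvPolynomial.X s) (fun s => MvPolynomial.C (β s)) g) f.totalDegree g.totalDegree

lemma eval_rho (α β : Fin n → ℤ) (f g : MvPolynomial (Fin n) ℤ) :
    MvPolynomial.eval α (rho β f g) =
      resultant (onl α β f) (onl α β g) f.totalDegree g.totalDegree := by
  unfold rho
  have h2 : (fun s : Fin n => MvPolynomial.eval α (MvPolynomial.X s)) = α := by
    funext s; simp
  have h3 : (fun s : Fin n => MvPolynomial.eval α (MvPolynomial.C (β s))) = β := by
    funext s; simp
  rw [← resultant_map_map, map_onl, map_onl, h2, h3]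

lemma entry_sylvester {R : Type} [CommRing R] (P : R → Prop) (h0 : P 0) (f g : R[X]) (m n : ℕ)
    (hf : ∀ i, P (f.coeff i)) (hg : ∀ i, P (g.coeff i)) (i j : Fin (m + n)) :
    P (sylvester f g m n i j) := by
  unfold sylvester
  rw [Matrix.of_apply]
  refine Fin.addCases (motive := fun j => P (Fin.addCases _ _ j)) ?_ ?_ j
  · intro j
    rw [Fin.addCases_left]
    split_ifs
    · exact hg _
    · exact h0
  · intro j
    rw [Fin.addCases_right]
    split_ifs
    · exact hf _
    · exact h0

lemma totalDegree_rho_le (β : Fin n → ℤ) (f g : MvPolynomial (Fin n) ℤ) (D : ℕ)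
    (hf : f.totalDegree ≤ D) (hg : g.totalDegree ≤ D) :
    (rho β f g).totalDegree ≤ 2 * D * D := by
  unfold rho resultant
  refine (totalDegree_det_le (D := D) _ ?_).trans ?_
  · intro i j
    apply entry_sylvester (fun x : MvPolynomial (Fin n) ℤ => x.totalDegree ≤ D)
    · simp
    · intro i; exact (CB_onl β f i).trans hf
    · intro i; exact (CB_onl β g i).trans hg
  · apply Nat.mul_le_mul_right
    omega

lemma onl_eq_psi (β : Fin n → ℤ) (f : MvPolynomial (Fin n) ℤ) :
    onl (fun s => MvPolynomial.X s) (fun s => MvPolynomial.C (β s)) f = psi β 1 f := by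
  have h : onl (fun s => (MvPolynomial.X s : MvPolynomial (Fin n) ℤ))
      (fun s => MvPolynomial.C (β s)) = (psi β 1 : MvPolynomial (Fin n) ℤ →+* _) := by
    apply MvPolynomial.ringHom_ext
    · intro z
      rw [onl_C, RingHom.coe_coe, psi_C]
      simp
    · intro s
      rw [onl_X, RingHom.coe_coe, psi_X, one_mul]
  exact RingHom.congr_fun h f

lemma rho_ne_zero (β : Fin n → ℤ) (f g : MvPolynomial (Fin n) ℤ)
    (hf1 : 1 ≤ f.totalDegree) (hβf : MvPolynomial.eval β (topp f) ≠ 0)
    (hβg : MvPolynomial.eval β (topp g) ≠ 0) (h : IsRelPrime f g) : rho β f g ≠ 0 := by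
  have hf0 : f ≠ 0 := by
    rintro rfl
    simp at hf1
  have hnd : ∀ g' : MvPolynomial (Fin n) ℤ, MvPolynomial.eval β (topp g') ≠ 0 →
      (onl (fun s => (MvPolynomial.X s : MvPolynomial (Fin n) ℤ))
        (fun s => MvPolynomial.C (β s)) g').natDegree = g'.totalDegree := by
    intro g' hg'
    apply le_antisymm (natDegree_onl_le _ _ _)
    apply le_natDegree_of_ne_zero
    rw [coeff_onl]
    have h4 : MvPolynomial.eval₂ (Int.castRingHom (MvPolynomial (Fin n) ℤ))
        (fun s => MvPolynomial.C (β s)) (topp g') =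
        MvPolynomial.C (MvPolynomial.eval β (topp g')) := by
      have h5 : MvPolynomial.eval₂Hom (Int.castRingHom (MvPolynomial (Fin n) ℤ))
          (fun s => MvPolynomial.C (β s)) =
          (MvPolynomial.C : ℤ →+* MvPolynomial (Fin n) ℤ).comp (MvPolynomial.eval β) := by
        apply MvPolynomial.ringHom_ext
        · intro z; simp
        · intro s; simp
      exact RingHom.congr_fun h5 (topp g')
    rw [h4]
    intro h6
    exact hg' (MvPolynomial.C_eq_zero.1 h6)
  unfold rho
  rw [← hnd f hβf, ← hnd g hβg, onl_eq_psi, onl_eq_psi]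
  apply resultant_ne_zero_of_isRelPrime _ _ _ (isRelPrime_psi _ _ _ hf0 h)
  intro h4
  rw [← onl_eq_psi] at h4
  have h5 := hnd f hβf
  rw [h4, natDegree_zero] at h5
  omega

/-- A line with small coordinates on which everything stays in general position. -/
theorem exists_line (m D T DH M : ℕ) (f : Fin m → MvPolynomial (Fin n) ℤ)
    (hdeg1 : ∀ j, 1 ≤ (f j).totalDegree) (hdegD : ∀ j, (f j).totalDegree ≤ D)
    (hT : ∑ j, (f j).totalDegree ≤ T) (hcop : ∀ j j', j ≠ j' → IsRelPrime (f j) (f j'))
    (H : MvPolynomial (Fin n) ℤ) (hH : H ≠ 0) (hDH : H.totalDegree ≤ DH)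
    (hM : T + T * T * (2 * D * D) + DH ≤ M) :
    ∃ α β : Fin n → ℤ, (∀ s, (α s).natAbs ≤ M) ∧ (∀ s, (β s).natAbs ≤ M) ∧
      (∀ j, MvPolynomial.eval α (f j) ≠ 0) ∧ (∀ j, MvPolynomial.eval β (topp (f j)) ≠ 0) ∧
      MvPolynomial.eval α H ≠ 0 ∧ ∀ j j', j ≠ j' →
        resultant (onl α β (f j)) (onl α β (f j')) (f j).totalDegree (f j').totalDegree ≠ 0 := by
  classical
  have hf0 : ∀ j, f j ≠ 0 := by
    intro j h0
    have := hdeg1 j
    rw [h0] at this
    simp at this
  have hmT : m ≤ T := by
    refine le_trans ?_ hT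
    calc m = ∑ j : Fin m, 1 := by simp
      _ ≤ ∑ j, (f j).totalDegree := Finset.sum_le_sum fun j _ => hdeg1 j
  have hcard : (Finset.Icc (0 : ℤ) M).card = M + 1 := by simp
  have habs : ∀ x : Fin n → ℤ, (∀ s, x s ∈ Finset.Icc (0 : ℤ) M) → ∀ s, (x s).natAbs ≤ M := by
    intro x hx s
    have := Finset.mem_Icc.1 (hx s)
    omega
  obtain ⟨β, hβS, hβ⟩ := exists_point (∏ j, topp (f j))
    (Finset.prod_ne_zero_iff.2 fun j _ => topp_ne_zero (hf0 j)) (Finset.Icc (0 : ℤ) M) (by
      rw [hcard]
      have h1 : (∏ j, topp (f j)).totalDegree ≤ T := by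
        refine (MvPolynomial.totalDegree_finsetProd _ _).trans ?_
        exact (Finset.sum_le_sum fun j _ => totalDegree_topp_le (f j)).trans hT
      omega)
  have hβ' : ∀ j, MvPolynomial.eval β (topp (f j)) ≠ 0 := by
    rw [map_prod] at hβ
    intro j
    exact Finset.prod_ne_zero_iff.1 hβ j (Finset.mem_univ j)
  obtain ⟨α, hαS, hα⟩ := exists_point ((∏ j, f j) *
      (∏ jj ∈ (Finset.univ : Finset (Fin m)).offDiag, rho β (f jj.1) (f jj.2)) * H)
    (mul_ne_zero (mul_ne_zero (Finset.prod_ne_zero_iff.2 fun j _ => hf0 j)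
      (Finset.prod_ne_zero_iff.2 fun jj hjj => rho_ne_zero β _ _ (hdeg1 _) (hβ' _) (hβ' _)
        (hcop _ _ (Finset.mem_offDiag.1 hjj).2.2))) hH) (Finset.Icc (0 : ℤ) M) (by
      rw [hcard]
      have h1 : (∏ j, f j).totalDegree ≤ T :=
        (MvPolynomial.totalDegree_finsetProd _ _).trans hT
      have h2 : (∏ jj ∈ (Finset.univ : Finset (Fin m)).offDiag,
          rho β (f jj.1) (f jj.2)).totalDegree ≤ T * T * (2 * D * D) := by
        refine (MvPolynomial.totalDegree_finsetProd _ _).trans ?_
        refine (Finset.sum_le_sum fun jj _ =>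
          totalDegree_rho_le β _ _ D (hdegD jj.1) (hdegD jj.2)).trans ?_
        rw [Finset.sum_const, smul_eq_mul]
        apply Nat.mul_le_mul_right
        rw [Finset.offDiag_card, Finset.card_univ, Fintype.card_fin]
        exact (Nat.sub_le _ _).trans (Nat.mul_le_mul hmT hmT)
      have h3 := MvPolynomial.totalDegree_mul ((∏ j, f j) *
        (∏ jj ∈ (Finset.univ : Finset (Fin m)).offDiag, rho β (f jj.1) (f jj.2))) H
      have h4 := MvPolynomial.totalDegree_mul (∏ j, f j)
        (∏ jj ∈ (Finset.univ : Finset (Fin m)).offDiag, rho β (f jj.1) (f jj.2))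
      omega)
  rw [map_mul, map_mul, map_prod, map_prod] at hα
  refine ⟨α, β, habs α hαS, habs β hβS, ?_, hβ', right_ne_zero_of_mul hα, ?_⟩
  · intro j
    exact Finset.prod_ne_zero_iff.1 (left_ne_zero_of_mul (left_ne_zero_of_mul hα)) j
      (Finset.mem_univ j)
  · intro j j' hjj
    have h1 := Finset.prod_ne_zero_iff.1 (right_ne_zero_of_mul (left_ne_zero_of_mul hα)) (j, j')
      (Finset.mem_offDiag.2 ⟨Finset.mem_univ _, Finset.mem_univ _, hjj⟩)
    rw [eval_rho] at h1
    exact h1

end Pool.Agent.Helper12_FV
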