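import Mathlib
import Pool.Agent.Helper12_FV.Point
import Pool.Agent.Helper12_D3.Int
import Pool.Agent.Helper78_ACIT.Prime

set_option autoImplicit false
set_option linter.unusedSectionVars false

/-!
Choice of the prime.
-/

namespace Pool.Agent.Helper12_FV

open Polynomial Pool.Agent.Helper12_D3

variable {n : ℕ}

/-- The logarithmic size of the bad number. -/
def LL (k T D b ε B : ℕ) : ℕ :=
  B * B + ε * T + ε * T + (2 * D * (2 * D) + ε * (2 * D)) * (T * T) +
    (D + b + B + 1) * (k * k * T * (D * (2 * B + 1))) + (k + ε * (1 + k * B * T))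

lemma prod_le_two_pow' {α : Type} (s : Finset α) (f : α → ℕ) (u N : ℕ) (hN : s.card ≤ N)
    (h : ∀ x ∈ s, f x ≤ 2 ^ u) : ∏ x ∈ s, f x ≤ 2 ^ (u * N) := by
  have h1 : ∏ x ∈ s, f x ≤ ∏ _x ∈ s, 2 ^ u := Finset.prod_le_prod' h
  refine h1.trans ?_
  rw [Finset.prod_const, ← pow_mul]
  exact Nat.pow_le_pow_right (by norm_num) (Nat.mul_le_mul_left _ hN)

lemma natAbs_resultant_le (α β : Fin n → ℤ) (D E : ℕ) (hE : 1 ≤ E)
    (f g : MvPolynomial (Fin n) ℤ) (hf : f.totalDegree ≤ D) (hg : g.totalDegree ≤ D)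
    (hf' : ∀ i, ((onl α β f).coeff i).natAbs ≤ E) (hg' : ∀ i, ((onl α β g).coeff i).natAbs ≤ E) :
    (resultant (onl α β f) (onl α β g) f.totalDegree g.totalDegree).natAbs ≤
      2 ^ (2 * D * (2 * D)) * E ^ (2 * D) := by
  unfold resultant
  refine (natAbs_det_le (E := E) _ ?_).trans ?_
  · intro i j
    apply entry_sylvester (fun x : ℤ => x.natAbs ≤ E)
    · simp
    · exact hf'
    · exact hg'
  · have h1 : f.totalDegree + g.totalDegree ≤ 2 * D := by omega
    apply Nat.mul_le_mul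
    · calc (f.totalDegree + g.totalDegree).factorial ≤ (2 * D).factorial :=
            Nat.factorial_le h1
        _ ≤ (2 * D) ^ (2 * D) := Nat.factorial_le_pow _
        _ ≤ (2 ^ (2 * D)) ^ (2 * D) := Nat.pow_le_pow_left Nat.lt_two_pow_self.le _
        _ = 2 ^ (2 * D * (2 * D)) := by rw [← pow_mul]
    · exact Nat.pow_le_pow_right hE h1

lemma natAbs_eval_class_le {k m : ℕ} (α : Fin n → ℤ) (I : Finset (Fin k))
    (A : Fin k → MvPolynomial (Fin n) ℤ) (f : Fin m → MvPolynomial (Fin n) ℤ)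
    (r : Fin k → Fin m → ℕ) (ε R : ℕ) (hA : ∀ i, (MvPolynomial.eval α (A i)).natAbs ≤ 2 ^ ε)
    (hf : ∀ j, (MvPolynomial.eval α (f j)).natAbs ≤ 2 ^ ε) (hr : ∀ i ∈ I, ∑ j, r i j ≤ R) :
    (MvPolynomial.eval α (∑ i ∈ I, A i * ∏ j, f j ^ r i j)).natAbs ≤ 2 ^ (k + ε * (1 + R)) := by
  rw [map_sum]
  refine (natAbs_sum_le _ _).trans ?_
  have h1 : ∀ i ∈ I, (MvPolynomial.eval α (A i * ∏ j, f j ^ r i j)).natAbs ≤
      2 ^ (ε * (1 + R)) := by
    intro i hi
    rw [map_mul, map_prod, Int.natAbs_mul]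
    have h2 : (∏ j, MvPolynomial.eval α (f j ^ r i j)).natAbs =
        ∏ j, (MvPolynomial.eval α (f j)).natAbs ^ r i j := by
      have : (∏ j, MvPolynomial.eval α (f j ^ r i j)).natAbs =
          ∏ j, (MvPolynomial.eval α (f j ^ r i j)).natAbs := map_prod Int.natAbsHom _ _
      rw [this]
      apply Finset.prod_congr rfl
      intro j _
      rw [map_pow, Int.natAbs_pow]
    rw [h2, mul_add, mul_one, pow_add]
    apply Nat.mul_le_mul (hA i)
    calc ∏ j, (MvPolynomial.eval α (f j)).natAbs ^ r i j ≤ ∏ j, (2 ^ ε) ^ r i j :=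
          Finset.prod_le_prod' fun j _ => Nat.pow_le_pow_left (hf j) _
      _ = (2 ^ ε) ^ ∑ j, r i j := Finset.prod_pow_eq_pow_sum _ _ _
      _ ≤ (2 ^ ε) ^ R := Nat.pow_le_pow_right (Nat.one_le_two_pow) (hr i hi)
      _ = 2 ^ (ε * R) := by rw [← pow_mul]
  refine (Finset.sum_le_sum h1).trans ?_
  rw [Finset.sum_const, smul_eq_mul, pow_add]
  apply Nat.mul_le_mul_right
  have h2 : I.card ≤ k := by
    have := Finset.card_le_univ I
    rwa [Fintype.card_fin] at this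
  exact h2.trans Nat.lt_two_pow_self.le

lemma totalDegree_class_le {k m : ℕ} (I : Finset (Fin k))
    (A : Fin k → MvPolynomial (Fin n) ℤ) (f : Fin m → MvPolynomial (Fin n) ℤ)
    (r : Fin k → Fin m → ℕ) (D R T : ℕ) (hA : ∀ i, (A i).totalDegree ≤ D)
    (hf : ∑ j, (f j).totalDegree ≤ T) (hr : ∀ i ∈ I, ∀ j, r i j ≤ R) :
    (∑ i ∈ I, A i * ∏ j, f j ^ r i j).totalDegree ≤ D + R * T := by
  apply MvPolynomial.totalDegree_finsetSum_le
  intro i hi
  refine (MvPolynomial.totalDegree_mul _ _).trans (add_le_add (hA i) ?_)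
  refine (MvPolynomial.totalDegree_finsetProd _ _).trans ?_
  refine (Finset.sum_le_sum fun j _ => (MvPolynomial.totalDegree_pow _ _).trans
    (Nat.mul_le_mul_right _ (hr i hi j))).trans ?_
  rw [← Finset.mul_sum]
  exact Nat.mul_le_mul_left _ hf

section modp

variable {p : ℕ} [Fact p.Prime]

lemma onl_cast (α β : Fin n → ℤ) (g : MvPolynomial (Fin n) ℤ) :
    onl (fun s => (α s : ZMod p)) (fun s => (β s : ZMod p)) g =
      (onl α β g).map (Int.castRingHom (ZMod p)) := by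
  rw [map_onl]
  simp only [eq_intCast]

lemma eval_zero_cast (α β : Fin n → ℤ) (g : MvPolynomial (Fin n) ℤ) :
    (onl (fun s => (α s : ZMod p)) (fun s => (β s : ZMod p)) g).eval 0 =
      ((MvPolynomial.eval α g : ℤ) : ZMod p) := by
  rw [onl_cast, ← coeff_zero_eq_eval_zero, coeff_map, coeff_zero_eq_eval_zero, eval_zero_onl,
    eq_intCast]
  rfl

lemma coeff_top_cast (α β : Fin n → ℤ) (g : MvPolynomial (Fin n) ℤ) :
    (onl (fun s => (α s : ZMod p)) (fun s => (β s : ZMod p)) g).coeff g.totalDegree =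
      ((MvPolynomial.eval β (topp g) : ℤ) : ZMod p) := by
  rw [onl_cast, coeff_map, coeff_onl, eq_intCast]
  rfl

lemma resultant_cast (α β : Fin n → ℤ) (g g' : MvPolynomial (Fin n) ℤ) (a b : ℕ) :
    resultant (onl (fun s => (α s : ZMod p)) (fun s => (β s : ZMod p)) g)
      (onl (fun s => (α s : ZMod p)) (fun s => (β s : ZMod p)) g') a b =
      ((resultant (onl α β g) (onl α β g') a b : ℤ) : ZMod p) := by
  rw [onl_cast, onl_cast, resultant_map_map, eq_intCast]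

theorem hit_modp {Q : Type} [DecidableEq Q] (m k D B : ℕ) (f : Fin m → MvPolynomial (Fin n) ℤ)
    (A : Fin k → MvPolynomial (Fin n) ℤ) (e : Fin k → Fin m → ℕ) (e0 : Fin m → ℕ)
    (hdeg1 : ∀ j, 1 ≤ (f j).totalDegree) (hdegD : ∀ j, (f j).totalDegree ≤ D)
    (hAD : ∀ i, (A i).totalDegree ≤ D) (α β : Fin n → ℤ)
    (hfz : ∀ j, ((MvPolynomial.eval α (f j) : ℤ) : ZMod p) ≠ 0)
    (hft : ∀ j, ((MvPolynomial.eval β (topp (f j)) : ℤ) : ZMod p) ≠ 0)
    (hres : ∀ j j', j ≠ j' → ((resultant (onl α β (f j)) (onl α β (f j')) (f j).totalDegree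
      (f j').totalDegree : ℤ) : ZMod p) ≠ 0)
    (H : MvPolynomial (Fin n) ℤ) (hHz : ((MvPolynomial.eval α H : ℤ) : ZMod p) ≠ 0)
    (κ : Fin k → Q) (q : Q)
    (hfac : ∑ i with κ i = q, A i * ∏ j, f j ^ e i j = (∏ j, f j ^ e0 j) * H)
    (hgood : Good p e D B) (hκ : ∀ i i', (∀ j, |(e i j : ℤ) - e i' j| ≤ B) → κ i = κ i')
    (hB : k * (D + k * ∑ j, (f j).totalDegree) ≤ B) (N : ℕ) (hN : B + k ≤ N) :
    ¬ (X : (ZMod p)[X]) ^ N ∣ onl (fun s => (α s : ZMod p)) (fun s => (β s : ZMod p))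
      (∑ i, A i * ∏ j, f j ^ e i j) := by
  classical
  intro hdvd
  obtain ⟨Φ, hΦ⟩ : ∃ Φ : MvPolynomial (Fin n) ℤ →+* (ZMod p)[X],
    Φ = onl (fun s => (α s : ZMod p)) (fun s => (β s : ZMod p)) := ⟨_, rfl⟩
  rw [← hΦ] at hdvd
  have hevz : ∀ g, (Φ g).eval 0 = ((MvPolynomial.eval α g : ℤ) : ZMod p) := by
    intro g
    rw [hΦ, eval_zero_cast]
  have hnd : ∀ g, (Φ g).natDegree ≤ g.totalDegree := by
    intro g
    rw [hΦ]
    exact natDegree_onl_le _ _ _
  have hud : ∀ j, (Φ (f j)).natDegree = (f j).totalDegree := by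
    intro j
    apply le_antisymm (hnd _)
    apply le_natDegree_of_ne_zero
    rw [hΦ, coeff_top_cast]
    exact hft j
  have hcopu : Pairwise fun j j' => IsCoprime (Φ (f j)) (Φ (f j')) := by
    intro j j' hjj
    have h1 : resultant (Φ (f j)) (Φ (f j')) (f j).totalDegree (f j').totalDegree ≠ 0 := by
      rw [hΦ, resultant_cast]
      exact hres j j' hjj
    obtain ⟨x, y, -, -, hxy⟩ := exists_mul_add_mul_eq_C_resultant (Φ (f j)) (Φ (f j')) (hud j).le
      (hud j').le (Or.inl (by have := hdeg1 j; omega))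
    obtain ⟨ρ, hρ⟩ : ∃ ρ, ρ = resultant (Φ (f j)) (Φ (f j')) (f j).totalDegree
      (f j').totalDegree := ⟨_, rfl⟩
    rw [← hρ] at h1 hxy
    refine ⟨C ρ⁻¹ * x, C ρ⁻¹ * y, ?_⟩
    have h3 : C ρ⁻¹ * C ρ = (1 : (ZMod p)[X]) := by
      rw [← C_mul, inv_mul_cancel₀ h1, C_1]
    rw [← h3, ← hxy]
    ring
  have htm : ∀ i, tm (fun i => Φ (A i)) (fun j => Φ (f j)) e i = Φ (A i * ∏ j, f j ^ e i j) := by
    intro i
    unfold tm pw
    rw [map_mul, map_prod]
    congr 1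
    apply Finset.prod_congr rfl
    intro j _
    rw [map_pow]
  have hfz' : ∀ j, (Φ (f j)).eval 0 ≠ 0 := by
    intro j
    rw [hevz]
    exact hfz j
  have hclass : (∑ i, if κ i = q then C ((1 : Fin k → ZMod p) i) *
      tm (fun i => Φ (A i)) (fun j => Φ (f j)) e i else 0) ≠ 0 := by
    intro h0
    rw [← Finset.sum_filter] at h0
    have h1 : ∑ i with κ i = q, C ((1 : Fin k → ZMod p) i) *
        tm (fun i => Φ (A i)) (fun j => Φ (f j)) e i = Φ ((∏ j, f j ^ e0 j) * H) := by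
      rw [← hfac, map_sum]
      apply Finset.sum_congr rfl
      intro i _
      rw [htm, Pi.one_apply, C_1, one_mul]
    rw [h1, map_mul, map_prod] at h0
    have h2 := congrArg (eval 0) h0
    rw [eval_zero, eval_mul, eval_prod, hevz H] at h2
    rcases mul_eq_zero.1 h2 with h3 | h3
    · rw [Finset.prod_eq_zero_iff] at h3
      obtain ⟨j, -, hj⟩ := h3
      rw [map_pow, eval_pow] at hj
      exact pow_ne_zero _ (hfz' j) hj
    · exact hHz h3
  apply order_bound (p := p) (fun i => Φ (A i)) (fun j => Φ (f j)) e D D B hgood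
    (fun i => (hnd _).trans (hAD i)) (fun j => by rw [hud]; exact hdeg1 j)
    (fun j => by rw [hud]; exact hdegD j) hcopu κ hκ (by
      rw [Fintype.card_fin]
      refine le_trans ?_ hB
      apply Nat.mul_le_mul_left
      apply Nat.add_le_add_left
      apply Nat.mul_le_mul_left
      exact Finset.sum_le_sum fun j _ => (hud j).le) 1 q hclass 0 hfz' N (by rw [Fintype.card_fin]; exact hN)
  rw [C_0, sub_zero]
  have h5 : ∑ i, C ((1 : Fin k → ZMod p) i) * tm (fun i => Φ (A i)) (fun j => Φ (f j)) e i =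
      Φ (∑ i, A i * ∏ j, f j ^ e i j) := by
    rw [map_sum]
    apply Finset.sum_congr rfl
    intro i _
    rw [htm, Pi.one_apply, C_1, one_mul]
  rw [h5]
  exact hdvd

end modp

theorem exists_hit (m k D T b ε M B : ℕ) (f : Fin m → MvPolynomial (Fin n) ℤ)
    (A : Fin k → MvPolynomial (Fin n) ℤ) (e : Fin k → Fin m → ℕ)
    (hdeg1 : ∀ j, 1 ≤ (f j).totalDegree) (hdegD : ∀ j, (f j).totalDegree ≤ D)
    (hT : ∑ j, (f j).totalDegree ≤ T) (hAD : ∀ i, (A i).totalDegree ≤ D)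
    (hcop : ∀ j j', j ≠ j' → IsRelPrime (f j) (f j')) (he : ∀ i j, e i j ≤ 2 ^ b)
    (hB1 : k * (D + k * T) = B) (hM1 : T + T * T * (2 * D * D) + (D + k * B * T) ≤ M)
    (hfE : ∀ α β : Fin n → ℤ, (∀ s, (α s).natAbs ≤ M) → (∀ s, (β s).natAbs ≤ M) →
      (∀ j, MvPolynomial.eval α (f j) ≠ 0) →
      ∀ j i, ((onl α β (f j)).coeff i).natAbs ≤ 2 ^ ε)
    (hAE : ∀ α : Fin n → ℤ, (∀ s, (α s).natAbs ≤ M) →
      ∀ i, (MvPolynomial.eval α (A i)).natAbs ≤ 2 ^ ε)
    (hne : ∑ i, A i * ∏ j, f j ^ e i j ≠ 0) :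
    ∃ p, p.Prime ∧ p ≤ 64 * (LL k T D b ε B + 1) ^ 2 ∧
      ∃ α β : Fin n → ZMod p, ∀ N, B + k ≤ N →
      ¬ (X : (ZMod p)[X]) ^ N ∣ onl α β (∑ i, A i * ∏ j, f j ^ e i j) := by
  classical
  have hmT : m ≤ T := by
    refine le_trans ?_ hT
    calc m = ∑ j : Fin m, 1 := by simp
      _ ≤ ∑ j, (f j).totalDegree := Finset.sum_le_sum fun j _ => hdeg1 j
  unfold LL
  set G := closeGraph e B with hG
  -- a nonzero class sum
  obtain ⟨q, hq⟩ : ∃ q, ∑ i with G.connectedComponentMk i = q, A i * ∏ j, f j ^ e i j ≠ 0 := by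
    by_contra hcon
    push Not at hcon
    apply hne
    rw [← Finset.sum_fiberwise_of_maps_to
      (t := (Finset.univ : Finset (Fin k)).image G.connectedComponentMk)
      (fun i _ => Finset.mem_image_of_mem _ (Finset.mem_univ i))]
    exact Finset.sum_eq_zero fun q _ => hcon q
  set I := Finset.univ.filter fun i => G.connectedComponentMk i = q with hI
  obtain ⟨i0, hi0⟩ : I.Nonempty := by
    rw [Finset.nonempty_iff_ne_empty]
    intro h0
    rw [h0, Finset.sum_empty] at hq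
    exact hq rfl
  have hi0' : G.connectedComponentMk i0 = q := (Finset.mem_filter.1 hi0).2
  have hreach : ∀ i, G.connectedComponentMk i = q → G.Reachable i0 i := by
    intro i hi
    rw [← hi0'] at hi
    exact (SimpleGraph.ConnectedComponent.eq.1 hi).symm
  obtain ⟨e0, r, her⟩ := exists_common e B i0
  have hrD : ∀ i ∈ I, ∀ j, r i j ≤ k * B := fun i hi j =>
    (her i (hreach i (Finset.mem_filter.1 hi).2) j).2
  have hrS : ∀ i ∈ I, ∑ j, r i j ≤ k * B * T := by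
    intro i hi
    refine (Finset.sum_le_sum fun j _ => hrD i hi j).trans ?_
    rw [Finset.sum_const, Finset.card_univ, Fintype.card_fin, smul_eq_mul, mul_comm]
    exact Nat.mul_le_mul_left _ hmT
  set H := ∑ i ∈ I, A i * ∏ j, f j ^ r i j with hH
  have hfac : ∑ i ∈ I, A i * ∏ j, f j ^ e i j = (∏ j, f j ^ e0 j) * H := by
    rw [hH, Finset.mul_sum]
    apply Finset.sum_congr rfl
    intro i hi
    rw [mul_left_comm, ← Finset.prod_mul_distrib]
    congr 1
    apply Finset.prod_congr rfl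
    intro j _
    rw [← pow_add, (her i (hreach i (Finset.mem_filter.1 hi).2) j).1]
  have hH0 : H ≠ 0 := by
    intro h0
    apply hq
    rw [hfac, h0, mul_zero]
  obtain ⟨α, β, hα, hβ, hfα, hfβ, hHα, hres⟩ := exists_line m D T (D + k * B * T) M f hdeg1
    hdegD hT hcop H hH0 (totalDegree_class_le I A f r D (k * B) T hAD hT hrD) hM1
  -- sizes
  have hfα2 : ∀ j, (MvPolynomial.eval α (f j)).natAbs ≤ 2 ^ ε := by
    intro j
    have h := hfE α β hα hβ hfα j 0
    rw [coeff_zero_eq_eval_zero, eval_zero_onl] at h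
    exact h
  have hAα2 : ∀ i, (MvPolynomial.eval α (A i)).natAbs ≤ 2 ^ ε := hAE α hα
  have hfβ2 : ∀ j, (MvPolynomial.eval β (topp (f j))).natAbs ≤ 2 ^ ε := by
    intro j
    have h := hfE α β hα hβ hfα j (f j).totalDegree
    rw [coeff_onl] at h
    exact h
  obtain ⟨ϱ, hϱ⟩ : ∃ ϱ : Fin m → Fin m → ℤ, ∀ j j', ϱ j j' =
      resultant (onl α β (f j)) (onl α β (f j')) (f j).totalDegree (f j').totalDegree :=
    ⟨fun j j' => resultant (onl α β (f j)) (onl α β (f j')) (f j).totalDegree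
      (f j').totalDegree, fun _ _ => rfl⟩
  have hϱ0 : ∀ j j', j ≠ j' → ϱ j j' ≠ 0 := by
    intro j j' h
    rw [hϱ]
    exact hres j j' h
  have hϱb : ∀ j j', (ϱ j j').natAbs ≤ 2 ^ (2 * D * (2 * D) + ε * (2 * D)) := by
    intro j j'
    rw [hϱ]
    refine (natAbs_resultant_le α β D (2 ^ ε) Nat.one_le_two_pow _ _ (hdegD _) (hdegD _)
      (hfE α β hα hβ hfα _) (hfE α β hα hβ hfα _)).trans ?_
    rw [← pow_mul, ← pow_add]
  -- the bad number
  set Z : Finset ((Fin k × Fin k × Fin m) × ℤ × ℤ) :=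
    (Finset.univ ×ˢ (Finset.Icc (1 : ℤ) D ×ˢ Finset.Icc (-(B : ℤ)) B)).filter
      fun z => z.2.1 * ((e z.1.1 z.1.2.2 : ℤ) - e z.1.2.1 z.1.2.2) - z.2.2 ≠ 0 with hZ
  set F1 : ℕ := ∏ j, (MvPolynomial.eval α (f j)).natAbs with hF1
  set F2 : ℕ := ∏ j, (MvPolynomial.eval β (topp (f j))).natAbs with hF2
  set F3 : ℕ := ∏ jj ∈ (Finset.univ : Finset (Fin m)).offDiag, (ϱ jj.1 jj.2).natAbs with hF3
  set F4 : ℕ := ∏ z ∈ Z, (z.2.1 * ((e z.1.1 z.1.2.2 : ℤ) - e z.1.2.1 z.1.2.2) - z.2.2).natAbs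
    with hF4
  set F5 : ℕ := (MvPolynomial.eval α H).natAbs with hF5
  have hF1ne : F1 ≠ 0 := Finset.prod_ne_zero_iff.2 fun j _ => Int.natAbs_ne_zero.2 (hfα j)
  have hF2ne : F2 ≠ 0 := Finset.prod_ne_zero_iff.2 fun j _ => Int.natAbs_ne_zero.2 (hfβ j)
  have hF3ne : F3 ≠ 0 := Finset.prod_ne_zero_iff.2 fun jj hjj =>
    Int.natAbs_ne_zero.2 (hϱ0 _ _ (Finset.mem_offDiag.1 hjj).2.2)
  have hF4ne : F4 ≠ 0 := Finset.prod_ne_zero_iff.2 fun z hz =>
    Int.natAbs_ne_zero.2 (Finset.mem_filter.1 hz).2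
  have hF5ne : F5 ≠ 0 := Int.natAbs_ne_zero.2 hHα
  have hb0 : B.factorial ≤ 2 ^ (B * B) := by
    calc B.factorial ≤ B ^ B := Nat.factorial_le_pow B
      _ ≤ (2 ^ B) ^ B := Nat.pow_le_pow_left Nat.lt_two_pow_self.le _
      _ = 2 ^ (B * B) := by rw [← pow_mul]
  have hb1 : F1 ≤ 2 ^ (ε * T) := prod_le_two_pow' _ _ _ _ (by simpa using hmT) fun j _ => hfα2 j
  have hb2 : F2 ≤ 2 ^ (ε * T) := prod_le_two_pow' _ _ _ _ (by simpa using hmT) fun j _ => hfβ2 j
  have hb3 : F3 ≤ 2 ^ ((2 * D * (2 * D) + ε * (2 * D)) * (T * T)) := by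
    apply prod_le_two_pow'
    · rw [Finset.offDiag_card, Finset.card_univ, Fintype.card_fin]
      exact (Nat.sub_le _ _).trans (Nat.mul_le_mul hmT hmT)
    · intro jj _
      exact hϱb _ _
  have hb4 : F4 ≤ 2 ^ ((D + b + B + 1) * (k * k * T * (D * (2 * B + 1)))) := by
    apply prod_le_two_pow'
    · refine (Finset.card_filter_le _ _).trans ?_
      rw [Finset.card_product, Finset.card_product, Int.card_Icc, Int.card_Icc, Finset.card_univ]
      simp only [Fintype.card_prod, Fintype.card_fin]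
      apply Nat.mul_le_mul
      · rw [← mul_assoc]
        exact Nat.mul_le_mul_left _ hmT
      · apply Nat.mul_le_mul
        · omega
        · omega
    · intro z hz
      rw [hZ, Finset.mem_filter, Finset.mem_product, Finset.mem_product, Finset.mem_Icc,
        Finset.mem_Icc] at hz
      obtain ⟨⟨_, ⟨h1, h2⟩, h3, h4⟩, _⟩ := hz
      have h5 := he z.1.1 z.1.2.2
      have h6 := he z.1.2.1 z.1.2.2
      have h7 : ((e z.1.1 z.1.2.2 : ℤ) - e z.1.2.1 z.1.2.2).natAbs ≤ 2 ^ b := by omega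
      have h8 : z.2.1.natAbs ≤ D := by omega
      have h9 : z.2.2.natAbs ≤ B := by omega
      refine (Int.natAbs_sub_le _ _).trans ?_
      rw [Int.natAbs_mul]
      have h10 : z.2.1.natAbs * ((e z.1.1 z.1.2.2 : ℤ) - e z.1.2.1 z.1.2.2).natAbs ≤
          2 ^ (D + b + B) := by
        calc _ ≤ D * 2 ^ b := Nat.mul_le_mul h8 h7
          _ ≤ 2 ^ D * 2 ^ b := Nat.mul_le_mul_right _ Nat.lt_two_pow_self.le
          _ = 2 ^ (D + b) := by rw [pow_add]
          _ ≤ 2 ^ (D + b + B) := Nat.pow_le_pow_right (by norm_num) (by omega)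
      have h11 : z.2.2.natAbs ≤ 2 ^ (D + b + B) := by
        calc _ ≤ B := h9
          _ ≤ 2 ^ B := Nat.lt_two_pow_self.le
          _ ≤ 2 ^ (D + b + B) := Nat.pow_le_pow_right (by norm_num) (by omega)
      rw [pow_succ]
      omega
  have hb5 : F5 ≤ 2 ^ (k + ε * (1 + k * B * T)) :=
    natAbs_eval_class_le α I A f r ε (k * B * T) hAα2 hfα2 hrS
  set NB : ℕ := B.factorial * F1 * F2 * F3 * F4 * F5 with hNB
  have hNBne : NB ≠ 0 := by
    rw [hNB]
    exact mul_ne_zero (mul_ne_zero (mul_ne_zero (mul_ne_zero (mul_ne_zero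
      (Nat.factorial_ne_zero _) hF1ne) hF2ne) hF3ne) hF4ne) hF5ne
  have hNBle : NB ≤ 2 ^ (B * B + ε * T + ε * T + (2 * D * (2 * D) + ε * (2 * D)) * (T * T) +
      (D + b + B + 1) * (k * k * T * (D * (2 * B + 1))) + (k + ε * (1 + k * B * T))) := by
    rw [hNB, pow_add, pow_add, pow_add, pow_add, pow_add]
    exact Nat.mul_le_mul (Nat.mul_le_mul (Nat.mul_le_mul (Nat.mul_le_mul (Nat.mul_le_mul
      hb0 hb1) hb2) hb3) hb4) hb5
  obtain ⟨p, hp, hple, hpnd⟩ := Helper78_ACIT.exists_prime_not_dvd NB _ hNBne hNBle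
  have : Fact p.Prime := ⟨hp⟩
  refine ⟨p, hp, hple, ?_⟩
  have hnd : ∀ x, x ∣ NB → ¬ p ∣ x := fun x hx h => hpnd (h.trans hx)
  have hcast : ∀ z : ℤ, z.natAbs ∣ NB → (z : ZMod p) ≠ 0 := by
    intro z hz h0
    rw [ZMod.intCast_zmod_eq_zero_iff_dvd, Int.natCast_dvd] at h0
    exact hnd _ hz h0
  have hBp : B < p := by
    by_contra hcon
    push Not at hcon
    apply hnd B.factorial
    · rw [hNB]
      exact ((((Dvd.intro _ rfl).mul_right _).mul_right _).mul_right _).mul_right _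
    · exact hp.dvd_factorial.2 hcon
  have hdF1 : F1 ∣ NB := by
    rw [hNB]
    exact ((((Dvd.intro_left _ rfl).mul_right _).mul_right _).mul_right _).mul_right _
  have hdF2 : F2 ∣ NB := by
    rw [hNB]
    exact (((Dvd.intro_left _ rfl).mul_right _).mul_right _).mul_right _
  have hdF3 : F3 ∣ NB := by
    rw [hNB]
    exact ((Dvd.intro_left _ rfl).mul_right _).mul_right _
  have hdF4 : F4 ∣ NB := by
    rw [hNB]
    exact (Dvd.intro_left _ rfl).mul_right _
  have hdF5 : F5 ∣ NB := by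
    rw [hNB]
    exact Dvd.intro_left _ rfl
  have hgood : Good p e D B := by
    refine ⟨hBp, ?_⟩
    intro i i' j a' b' h1 h2 hb' hne' hdvd
    have hz : ((i, i', j), a', b') ∈ Z := by
      rw [hZ, Finset.mem_filter, Finset.mem_product, Finset.mem_product, Finset.mem_Icc,
        Finset.mem_Icc]
      rw [abs_le] at hb'
      exact ⟨⟨Finset.mem_univ _, ⟨h1, h2⟩, hb'⟩, sub_ne_zero.2 hne'⟩
    have h3 := hcast (a' * ((e i j : ℤ) - e i' j) - b')
      ((Finset.dvd_prod_of_mem (fun z : (Fin k × Fin k × Fin m) × ℤ × ℤ =>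
        (z.2.1 * ((e z.1.1 z.1.2.2 : ℤ) - e z.1.2.1 z.1.2.2) - z.2.2).natAbs) hz).trans hdF4)
    apply h3
    rw [ZMod.intCast_zmod_eq_zero_iff_dvd]
    exact hdvd
  refine ⟨fun s => (α s : ZMod p), fun s => (β s : ZMod p), fun N hN => ?_⟩
  refine hit_modp m k D B f A e e0 hdeg1 hdegD hAD α β ?_ ?_ ?_ H (hcast _ hdF5)
    G.connectedComponentMk q hfac hgood ?_ (by
      rw [← hB1]
      exact Nat.mul_le_mul_left _ (Nat.add_le_add_left (Nat.mul_le_mul_left _ hT) _)) N hN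
  · intro j
    exact hcast (MvPolynomial.eval α (f j)) ((Finset.dvd_prod_of_mem
      (fun j => (MvPolynomial.eval α (f j)).natAbs) (Finset.mem_univ j)).trans hdF1)
  · intro j
    exact hcast (MvPolynomial.eval β (topp (f j))) ((Finset.dvd_prod_of_mem
      (fun j => (MvPolynomial.eval β (topp (f j))).natAbs) (Finset.mem_univ j)).trans hdF2)
  · intro j j' hjj
    rw [← hϱ]
    have hmem : (j, j') ∈ (Finset.univ : Finset (Fin m)).offDiag :=
      Finset.mem_offDiag.2 ⟨Finset.mem_univ j, Finset.mem_univ j', hjj⟩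
    exact hcast (ϱ j j') ((Finset.dvd_prod_of_mem (fun jj : Fin m × Fin m =>
        (ϱ jj.1 jj.2).natAbs) hmem).trans hdF3)
  · intro i i' h
    by_cases hii : i = i'
    · rw [hii]
    · apply SimpleGraph.ConnectedComponent.sound
      apply SimpleGraph.Adj.reachable
      refine ⟨hii, fun j => ?_⟩
      have := h j
      rw [abs_le] at this
      constructor <;> omega

end Pool.Agent.Helper12_FV
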