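import Mathlib
import Pool.Agent.Helper12_FV.Main

set_option autoImplicit false
set_option linter.unusedSectionVars false

/-!
Reduction to pairwise coprime base polynomials.
-/

namespace Pool.Agent.Helper12_FV

open Polynomial UniqueFactorizationMonoid

variable {n : ℕ}

lemma mignotte (P Q : ℤ[X]) (D E : ℕ) (hQP : Q ∣ P) (hP : P ≠ 0) (hD : P.natDegree ≤ D)
    (hE : ∀ i, (P.coeff i).natAbs ≤ E) (i : ℕ) : (Q.coeff i).natAbs ≤ 2 ^ D * ((D + 1) * E) := by
  obtain ⟨R, rfl⟩ := hQP
  have hQ0 : Q ≠ 0 := left_ne_zero_of_mul hP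
  have hR0 : R ≠ 0 := right_ne_zero_of_mul hP
  have hQD : Q.natDegree ≤ D := by
    rw [natDegree_mul hQ0 hR0] at hD
    omega
  have h1 := norm_coeff_le_choose_mul_mahlerMeasure_of_one_le_mahlerMeasure i
    (Q.map (Int.castRingHom ℂ)) (R.map (Int.castRingHom ℂ)) (one_le_mahlerMeasure_of_ne_zero hR0)
  have h2 := mahlerMeasure_le_sum_norm_coeff ((Q * R).map (Int.castRingHom ℂ))
  rw [← Polynomial.map_mul] at h1
  have h3 : ((Q * R).map (Int.castRingHom ℂ)).sum (fun _ a => ‖a‖) ≤ ((D + 1) * E : ℕ) := by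
    rw [sum_over_range' _ (fun _ => norm_zero) (D + 1) (by
      refine lt_of_le_of_lt natDegree_map_le ?_
      omega)]
    have h4 : ∀ a ∈ Finset.range (D + 1), ‖((Q * R).map (Int.castRingHom ℂ)).coeff a‖ ≤ E := by
      intro a _
      rw [coeff_map, eq_intCast, Complex.norm_intCast]
      have := hE a
      have h5 : (|((Q * R).coeff a : ℤ)| : ℝ) = (((Q * R).coeff a).natAbs : ℝ) := by
        rw [Nat.cast_natAbs]
        push_cast
        rfl
      rw [h5]
      exact_mod_cast this
    refine (Finset.sum_le_sum h4).trans ?_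
    rw [Finset.sum_const, Finset.card_range, nsmul_eq_mul]
    push_cast
    exact le_rfl
  have h6 : (((Q.map (Int.castRingHom ℂ)).natDegree.choose i : ℕ) : ℝ) ≤ ((2 ^ D : ℕ) : ℝ) := by
    have h7 : (Q.map (Int.castRingHom ℂ)).natDegree.choose i ≤ 2 ^ D := by
      calc _ ≤ 2 ^ (Q.map (Int.castRingHom ℂ)).natDegree := Nat.choose_le_two_pow _ _
        _ ≤ 2 ^ D := Nat.pow_le_pow_right (by norm_num) (natDegree_map_le.trans hQD)
    exact_mod_cast h7
  have h8 : ‖(Q.map (Int.castRingHom ℂ)).coeff i‖ ≤ ((2 ^ D * ((D + 1) * E) : ℕ) : ℝ) := by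
    refine h1.trans ?_
    rw [Nat.cast_mul (2 ^ D)]
    exact mul_le_mul h6 (h2.trans h3) (mahlerMeasure_nonneg _) (by positivity)
  rw [coeff_map, eq_intCast, Complex.norm_intCast] at h8
  have h5 : (|(Q.coeff i : ℤ)| : ℝ) = ((Q.coeff i).natAbs : ℝ) := by
    rw [Nat.cast_natAbs]
    push_cast
    rfl
  rw [h5] at h8
  exact_mod_cast h8

lemma totalDegree_prod_eq {ι : Type} (s : Finset ι) (g : ι → MvPolynomial (Fin n) ℤ)
    (h : ∀ t ∈ s, g t ≠ 0) : (∏ t ∈ s, g t).totalDegree = ∑ t ∈ s, (g t).totalDegree := by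
  classical
  induction s using Finset.induction_on with
  | empty => simp
  | insert a s ha ih =>
    rw [Finset.prod_insert ha, Finset.sum_insert ha, MvPolynomial.totalDegree_mul_of_isDomain
      (h a (Finset.mem_insert_self _ _))
      (Finset.prod_ne_zero_iff.2 fun t ht => h t (Finset.mem_insert_of_mem ht)),
      ih fun t ht => h t (Finset.mem_insert_of_mem ht)]

lemma totalDegree_pow_eq (g : MvPolynomial (Fin n) ℤ) (h : g ≠ 0) (e : ℕ) :
    (g ^ e).totalDegree = e * g.totalDegree := by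
  induction e with
  | zero => simp
  | succ e ih =>
    rw [pow_succ, MvPolynomial.totalDegree_mul_of_isDomain (pow_ne_zero _ h) h, ih, add_mul,
      one_mul]

lemma totalDegree_unit {u : MvPolynomial (Fin n) ℤ} (h : IsUnit u) : u.totalDegree = 0 := by
  obtain ⟨v, hv⟩ := h.exists_right_inv
  have hu : u ≠ 0 := h.ne_zero
  have hv0 : v ≠ 0 := by
    rintro rfl
    rw [mul_zero] at hv
    exact zero_ne_one hv
  have := MvPolynomial.totalDegree_mul_of_isDomain hu hv0
  rw [hv, MvPolynomial.totalDegree_one] at this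
  omega

lemma exists_factorization (m D T : ℕ) (f : Fin m → MvPolynomial (Fin n) ℤ)
    (hprim : ∀ j, ∀ z : ℤ, MvPolynomial.C z ∣ f j → IsUnit z)
    (hD : ∀ j, (f j).totalDegree ≤ D) (hT : ∑ j, (f j).totalDegree ≤ T) :
    ∃ (m' : ℕ) (g : Fin m' → MvPolynomial (Fin n) ℤ) (a : Fin m → Fin m' → ℕ)
      (u : Fin m → MvPolynomial (Fin n) ℤ), (∀ j, IsUnit (u j)) ∧
      (∀ t, 1 ≤ (g t).totalDegree) ∧ (∀ t, ∃ j, g t ∣ f j) ∧
      ∑ t, (g t).totalDegree ≤ T ∧ (∀ t t', t ≠ t' → IsRelPrime (g t) (g t')) ∧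
      (∀ j, f j = u j * ∏ t, g t ^ a j t) ∧ ∀ j t, a j t ≤ D := by
  classical
  let _ : StrongNormalizationMonoid (MvPolynomial (Fin n) ℤ) :=
    UniqueFactorizationMonoid.strongNormalizationMonoid
  have hf0 : ∀ j, f j ≠ 0 := by
    intro j h0
    have := hprim j 0 (by rw [h0]; exact dvd_zero _)
    exact not_isUnit_zero this
  set Q : Finset (MvPolynomial (Fin n) ℤ) :=
    Finset.univ.biUnion fun j => (normalizedFactors (f j)).toFinset with hQ
  have hQj : ∀ q ∈ Q, ∃ j, q ∈ normalizedFactors (f j) := by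
    intro q hq
    rw [hQ, Finset.mem_biUnion] at hq
    obtain ⟨j, -, hj⟩ := hq
    exact ⟨j, Multiset.mem_toFinset.1 hj⟩
  have hirr : ∀ q ∈ Q, Irreducible q := fun q hq =>
    irreducible_of_normalized_factor q (hQj q hq).choose_spec
  have hnorm : ∀ q ∈ Q, normalize q = q := fun q hq =>
    normalize_normalized_factor q (hQj q hq).choose_spec
  have hdvd : ∀ q ∈ Q, ∃ j, q ∣ f j := fun q hq =>
    ⟨(hQj q hq).choose, dvd_of_mem_normalizedFactors (hQj q hq).choose_spec⟩
  have hdeg : ∀ q ∈ Q, 1 ≤ q.totalDegree := by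
    intro q hq
    by_contra hcon
    have h0 : q.totalDegree = 0 := by omega
    rw [MvPolynomial.totalDegree_eq_zero_iff_eq_C] at h0
    obtain ⟨j, hj⟩ := hdvd q hq
    rw [h0] at hj
    have h1 := hprim j _ hj
    apply (hirr q hq).not_isUnit
    rw [h0]
    exact h1.map MvPolynomial.C
  have hcount : ∀ j, (normalizedFactors (f j)).prod =
      ∏ q ∈ Q, q ^ (normalizedFactors (f j)).count q := by
    intro j
    apply Finset.prod_multiset_count_of_subset
    exact Finset.subset_biUnion_of_mem (fun j => (normalizedFactors (f j)).toFinset)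
      (Finset.mem_univ j)
  have hass : ∀ j, ∃ u : MvPolynomial (Fin n) ℤ, IsUnit u ∧
      f j = u * ∏ q ∈ Q, q ^ (normalizedFactors (f j)).count q := by
    intro j
    obtain ⟨u, hu⟩ := prod_normalizedFactors (hf0 j)
    refine ⟨u, u.isUnit, ?_⟩
    rw [← hcount, mul_comm]
    exact hu.symm
  choose u hu hfu using hass
  have hsum : ∀ j, (f j).totalDegree =
      ∑ q ∈ Q, (normalizedFactors (f j)).count q * q.totalDegree := by
    intro j
    have h1 : ∏ q ∈ Q, q ^ (normalizedFactors (f j)).count q ≠ 0 :=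
      Finset.prod_ne_zero_iff.2 fun q hq => pow_ne_zero _ (hirr q hq).ne_zero
    conv_lhs => rw [hfu j]
    rw [MvPolynomial.totalDegree_mul_of_isDomain (hu j).ne_zero h1, totalDegree_unit (hu j),
      zero_add, totalDegree_prod_eq _ _ fun q hq => pow_ne_zero _ (hirr q hq).ne_zero]
    exact Finset.sum_congr rfl fun q hq => totalDegree_pow_eq _ (hirr q hq).ne_zero _
  have hQT : ∑ q ∈ Q, q.totalDegree ≤ T := by
    refine le_trans ?_ hT
    calc ∑ q ∈ Q, q.totalDegree
        ≤ ∑ q ∈ Q, ∑ j, (normalizedFactors (f j)).count q * q.totalDegree := by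
          apply Finset.sum_le_sum
          intro q hq
          obtain ⟨j, hj⟩ := hQj q hq
          refine le_trans ?_ (Finset.single_le_sum
            (f := fun j => (normalizedFactors (f j)).count q * q.totalDegree)
            (fun _ _ => Nat.zero_le _) (Finset.mem_univ j))
          exact Nat.le_mul_of_pos_left _ (Multiset.count_pos.2 hj)
      _ = ∑ j, ∑ q ∈ Q, (normalizedFactors (f j)).count q * q.totalDegree :=
          Finset.sum_comm
      _ = ∑ j, (f j).totalDegree := Finset.sum_congr rfl fun j _ => (hsum j).symm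
  have hcountD : ∀ j, ∀ q ∈ Q, (normalizedFactors (f j)).count q ≤ D := by
    intro j q hq
    refine le_trans ?_ (hD j)
    rw [hsum j]
    refine le_trans ?_ (Finset.single_le_sum
            (f := fun q => (normalizedFactors (f j)).count q * q.totalDegree)
            (fun _ _ => Nat.zero_le _) hq)
    exact Nat.le_mul_of_pos_right _ (hdeg q hq)
  have hrel : ∀ q ∈ Q, ∀ q' ∈ Q, q ≠ q' → IsRelPrime q q' := by
    intro q hq q' hq' hne
    rw [(hirr q hq).isRelPrime_iff_not_dvd]
    intro hd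
    have h1 := (hirr q hq).associated_of_dvd (hirr q' hq') hd
    apply hne
    rw [← hnorm q hq, ← hnorm q' hq']
    exact normalize_eq_normalize_iff_associated.2 h1
  refine ⟨Q.card, fun t => (Q.equivFin.symm t : MvPolynomial (Fin n) ℤ),
    fun j t => (normalizedFactors (f j)).count (Q.equivFin.symm t : MvPolynomial (Fin n) ℤ),
    u, hu, fun t => hdeg _ (Q.equivFin.symm t).2, fun t => hdvd _ (Q.equivFin.symm t).2, ?_,
    ?_, ?_, fun j t => hcountD j _ (Q.equivFin.symm t).2⟩
  · refine le_trans (le_of_eq ?_) hQT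
    rw [← Finset.sum_coe_sort Q]
    exact Equiv.sum_comp Q.equivFin.symm (fun q : Q => (q : MvPolynomial (Fin n) ℤ).totalDegree)
  · intro t t' htt
    apply hrel _ (Q.equivFin.symm t).2 _ (Q.equivFin.symm t').2
    intro h
    exact htt (Q.equivFin.symm.injective (Subtype.ext h))
  · intro j
    conv_lhs => rw [hfu j]
    congr 1
    rw [← Finset.prod_coe_sort Q]
    exact (Equiv.prod_comp Q.equivFin.symm (fun q : Q =>
      (q : MvPolynomial (Fin n) ℤ) ^ (normalizedFactors (f j)).count (q : MvPolynomial (Fin n) ℤ))).symm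

end Pool.Agent.Helper12_FV
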