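import Mathlib
import Pool.Agent.Helper12_FV.Factor

set_option autoImplicit false
set_option linter.unusedSectionVars false

/-!
The hitting theorem for arbitrary primitive base polynomials.
-/

namespace Pool.Agent.Helper12_FV

open Polynomial

variable {n : ℕ}

lemma natAbs_eval_unit (α : Fin n → ℤ) {u : MvPolynomial (Fin n) ℤ} (h : IsUnit u) :
    (MvPolynomial.eval α u).natAbs = 1 :=
  Int.isUnit_iff_natAbs_eq.1 (h.map (MvPolynomial.eval α))

set_option profiler true in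
theorem exists_hit_general (m k D T b c ε w M B : ℕ) (f : Fin m → MvPolynomial (Fin n) ℤ)
    (A : Fin k → MvPolynomial (Fin n) ℤ) (e : Fin k → Fin m → ℕ)
    (hprim : ∀ j, ∀ z : ℤ, MvPolynomial.C z ∣ f j → IsUnit z)
    (hdegD : ∀ j, (f j).totalDegree ≤ D) (hAD : ∀ i, (A i).totalDegree ≤ D)
    (hflen : ∀ j, len (f j) ≤ 2 ^ b) (hAlen : ∀ i, len (A i) ≤ 2 ^ b)
    (he : ∀ i j, e i j ≤ 2 ^ b) (hT : m * D ≤ T) (hc : m + D + b ≤ c)
    (hB1 : k * (D + k * T) = B) (hM0 : 1 ≤ M)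
    (hM1 : T + T * T * (2 * D * D) + (D + k * B * T) ≤ M) (hw : 2 * M ≤ 2 ^ w)
    (hε : b + w * D + 2 * D ≤ ε)
    (hne : ∑ i, A i * ∏ j, f j ^ e i j ≠ 0) :
    ∃ p, p.Prime ∧ p ≤ 64 * (LL k T D c ε B + 1) ^ 2 ∧
      ∃ α β : Fin n → ZMod p, ∀ N, B + k ≤ N →
      ¬ (X : (ZMod p)[X]) ^ N ∣ onl α β (∑ i, A i * ∏ j, f j ^ e i j) := by
  classical
  have hsumT : ∑ j, (f j).totalDegree ≤ T := by
    refine le_trans ?_ hT
    refine (Finset.sum_le_sum fun j _ => hdegD j).trans ?_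
    simp
  obtain ⟨m', g, a, u, hu, hg1, hgd, hgT, hrel, hfac, haD⟩ :=
    exists_factorization m D T f hprim hdegD hsumT
  have hf0 : ∀ j, f j ≠ 0 := by
    intro j h0
    have := hprim j 0 (by rw [h0]; exact dvd_zero _)
    exact not_isUnit_zero this
  have hgD : ∀ t, (g t).totalDegree ≤ D := by
    intro t
    obtain ⟨j, hj⟩ := hgd t
    exact (MvPolynomial.totalDegree_le_of_dvd_of_isDomain hj (hf0 j)).trans (hdegD j)
  have hunit : ∀ i, IsUnit (∏ j, u j ^ e i j) := by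
    intro i
    rw [IsUnit.prod_univ_iff]
    exact fun j => (hu j).pow _
  have hrw : ∀ i, A i * ∏ j, f j ^ e i j =
      (A i * ∏ j, u j ^ e i j) * ∏ t, g t ^ (∑ j, a j t * e i j) := by
    intro i
    have h1 : ∏ j, f j ^ e i j = (∏ j, u j ^ e i j) * ∏ t, g t ^ (∑ j, a j t * e i j) := by
      have h2 : ∀ j, f j ^ e i j = u j ^ e i j * ∏ t, g t ^ (a j t * e i j) := by
        intro j
        conv_lhs => rw [hfac j]
        rw [mul_pow, ← Finset.prod_pow]
        congr 1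
        exact Finset.prod_congr rfl fun t _ => by rw [pow_mul]
      rw [Finset.prod_congr rfl fun j _ => h2 j, Finset.prod_mul_distrib, Finset.prod_comm]
      congr 1
      exact Finset.prod_congr rfl fun t _ => Finset.prod_pow_eq_pow_sum _ _ _
    rw [h1, mul_assoc]
  have hrw' : ∑ i, A i * ∏ j, f j ^ e i j =
      ∑ i, (A i * ∏ j, u j ^ e i j) * ∏ t, g t ^ (∑ j, a j t * e i j) :=
    Finset.sum_congr rfl fun i _ => hrw i
  rw [hrw'] at hne ⊢
  obtain ⟨A', hA'⟩ : ∃ A' : Fin k → MvPolynomial (Fin n) ℤ, A' = fun i => A i * ∏ j, u j ^ e i j :=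
    ⟨_, rfl⟩
  obtain ⟨e', he'⟩ : ∃ e' : Fin k → Fin m' → ℕ, e' = fun i t => ∑ j, a j t * e i j := ⟨_, rfl⟩
  have hrw2 : ∑ i, (A i * ∏ j, u j ^ e i j) * ∏ t, g t ^ (∑ j, a j t * e i j) =
      ∑ i, A' i * ∏ t, g t ^ e' i t := by
    rw [hA', he']
  rw [hrw2] at hne ⊢
  have h2D : D + 1 ≤ 2 ^ D := Nat.lt_two_pow_self
  have hd1 : ∀ i, (A' i).totalDegree ≤ D := by
    intro i
    rw [hA']
    refine (MvPolynomial.totalDegree_mul _ _).trans ?_
    rw [totalDegree_unit (hunit i), add_zero]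
    exact hAD i
  have hd2 : ∀ i t, e' i t ≤ 2 ^ c := by
    intro i t
    rw [he']
    calc ∑ j, a j t * e i j ≤ ∑ _j : Fin m, D * 2 ^ b :=
          Finset.sum_le_sum fun j _ => Nat.mul_le_mul (haD j t) (he i j)
      _ = m * (D * 2 ^ b) := by simp
      _ ≤ 2 ^ m * (2 ^ D * 2 ^ b) := Nat.mul_le_mul Nat.lt_two_pow_self.le
          (Nat.mul_le_mul_right _ Nat.lt_two_pow_self.le)
      _ = 2 ^ (m + D + b) := by rw [pow_add, pow_add, mul_assoc]
      _ ≤ 2 ^ c := Nat.pow_le_pow_right (by norm_num) hc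
  have hd3 : ∀ α β : Fin n → ℤ, (∀ s, (α s).natAbs ≤ M) → (∀ s, (β s).natAbs ≤ M) →
      (∀ t, MvPolynomial.eval α (g t) ≠ 0) →
      ∀ t i, ((onl α β (g t)).coeff i).natAbs ≤ 2 ^ ε := by
    intro α β hα hβ hz t i
    obtain ⟨j, hj⟩ := hgd t
    have h1 : onl α β (f j) ≠ 0 := by
      intro h0
      have h3 : MvPolynomial.eval α (f j) = 0 := by
        have := eval_zero_onl α β (f j)
        rw [h0, eval_zero] at this
        exact this.symm
      rw [hfac j, map_mul, map_prod] at h3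
      rcases mul_eq_zero.1 h3 with h4 | h4
      · have := natAbs_eval_unit α (hu j)
        rw [h4] at this
        simp at this
      · rw [Finset.prod_eq_zero_iff] at h4
        obtain ⟨t', -, h5⟩ := h4
        rw [map_pow] at h5
        exact hz t' (eq_zero_of_pow_eq_zero h5)
    have hdv : onl α β (g t) ∣ onl α β (f j) := by
      obtain ⟨r, hr⟩ := hj
      rw [hr, map_mul]
      exact Dvd.intro _ rfl
    have hbd : ∀ i, ((onl α β (f j)).coeff i).natAbs ≤ len (f j) * (2 * M) ^ D := fun i =>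
      natAbs_coeff_onl_le α β M D hM0 hα hβ (f j) (hdegD j) i
    have hnd : (onl α β (f j)).natDegree ≤ D := (natDegree_onl_le _ _ _).trans (hdegD j)
    obtain ⟨E, hE⟩ : ∃ E, E = len (f j) * (2 * M) ^ D := ⟨_, rfl⟩
    rw [← hE] at hbd
    have h2 := mignotte (onl α β (f j)) (onl α β (g t)) D E hdv h1 hnd hbd i
    refine h2.trans ?_
    rw [hE]
    calc 2 ^ D * ((D + 1) * (len (f j) * (2 * M) ^ D))
        ≤ 2 ^ D * (2 ^ D * (2 ^ b * (2 ^ w) ^ D)) := Nat.mul_le_mul_left _ (Nat.mul_le_mul h2D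
          (Nat.mul_le_mul (hflen j) (Nat.pow_le_pow_left hw _)))
      _ = 2 ^ (b + w * D + 2 * D) := by
          rw [← pow_mul, ← pow_add, ← pow_add, ← pow_add]
          congr 1
          ring
      _ ≤ 2 ^ ε := Nat.pow_le_pow_right (by norm_num) hε
  have hd4 : ∀ α : Fin n → ℤ, (∀ s, (α s).natAbs ≤ M) →
      ∀ i, (MvPolynomial.eval α (A' i)).natAbs ≤ 2 ^ ε := by
    intro α hα i
    rw [hA', map_mul, Int.natAbs_mul, natAbs_eval_unit α (hunit i), mul_one]
    refine (natAbs_eval_le α M D hM0 hα (A i) (hAD i)).trans ?_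
    calc len (A i) * (2 * M) ^ D ≤ 2 ^ b * (2 ^ w) ^ D :=
          Nat.mul_le_mul (hAlen i) (Nat.pow_le_pow_left hw _)
      _ = 2 ^ (b + w * D) := by rw [← pow_mul, ← pow_add]
      _ ≤ 2 ^ ε := Nat.pow_le_pow_right (by norm_num) (by omega)
  exact exists_hit m' k D T c ε M B g A' e' hg1 hgD hgT hd1 hrel hd2 hB1 hM1 hd3 hd4 hne

end Pool.Agent.Helper12_FV
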