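import Mathlib
import Pool.Agent.Helper12_FV.General

set_option autoImplicit false

/-!
Explicit bounds.
-/

namespace Pool.Agent.Helper12_FV

lemma mulb {R x y a b : ℕ} (hx : x ≤ R ^ a) (hy : y ≤ R ^ b) : x * y ≤ R ^ (a + b) := by
  rw [pow_add]
  exact Nat.mul_le_mul hx hy

lemma addb {R x y a : ℕ} (hR : 2 ≤ R) (hx : x ≤ R ^ a) (hy : y ≤ R ^ a) :
    x + y ≤ R ^ (a + 1) := by
  rw [pow_succ]
  calc x + y ≤ R ^ a + R ^ a := add_le_add hx hy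
    _ = R ^ a * 2 := by ring
    _ ≤ R ^ a * R := Nat.mul_le_mul_left _ hR

lemma upb {R x a : ℕ} (b : ℕ) (hR : 2 ≤ R) (hx : x ≤ R ^ a) (hab : a ≤ b) : x ≤ R ^ b :=
  hx.trans (Nat.pow_le_pow_right (by omega) hab)

lemma bound_le (m k b D R : ℕ) (hR : R = m + k + b + D + 2) :
    (m * D + m * D * (m * D) * (2 * D * D) + (D + k * (k * (D + k * (m * D))) * (m * D)) ≤
      R ^ 11) ∧
    2 * R ^ 11 ≤ 2 ^ (12 * R) ∧ b + 12 * R * D + 2 * D ≤ R ^ 6 ∧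
    64 * (LL k (m * D) D (m + D + b) (R ^ 6) (k * (D + k * (m * D))) + 1) ^ 2 ≤ R ^ 50 := by
  have hR2 : 2 ≤ R := by omega
  have e1 : ∀ {x : ℕ}, x ≤ R → x ≤ R ^ 1 := fun h => by rwa [pow_one]
  have hm : m ≤ R ^ 1 := e1 (by omega)
  have hk : k ≤ R ^ 1 := e1 (by omega)
  have hb : b ≤ R ^ 1 := e1 (by omega)
  have hD : D ≤ R ^ 1 := e1 (by omega)
  have h2 : 2 ≤ R ^ 1 := e1 hR2
  have h1 : 1 ≤ R ^ 1 := e1 (by omega)
  have hT : m * D ≤ R ^ 2 := mulb hm hD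
  have hB : k * (D + k * (m * D)) ≤ R ^ 5 :=
    mulb hk (addb hR2 (upb 3 hR2 hD (by norm_num)) (mulb hk hT))
  obtain ⟨T, hTe⟩ : ∃ T, T = m * D := ⟨_, rfl⟩
  rw [← hTe] at hT hB ⊢
  obtain ⟨B, hBe⟩ : ∃ B, B = k * (D + k * T) := ⟨_, rfl⟩
  rw [← hBe] at hB ⊢
  refine ⟨?_, ?_, ?_, ?_⟩
  · have h3 : T * T * (2 * D * D) ≤ R ^ 7 := mulb (mulb hT hT) (mulb (mulb h2 hD) hD)
    have h4 : k * B * T ≤ R ^ 8 := mulb (mulb hk hB) hT
    have h5 : D + k * B * T ≤ R ^ 9 := addb hR2 (upb 8 hR2 hD (by norm_num)) h4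
    have h6 : T + T * T * (2 * D * D) ≤ R ^ 8 := addb hR2 (upb 7 hR2 hT (by norm_num)) h3
    exact upb 11 hR2 (addb hR2 (upb 9 hR2 h6 (by norm_num)) h5) (by norm_num)
  · calc 2 * R ^ 11 ≤ R * R ^ 11 := Nat.mul_le_mul_right _ hR2
      _ = R ^ 12 := by ring
      _ ≤ (2 ^ R) ^ 12 := Nat.pow_le_pow_left Nat.lt_two_pow_self.le _
      _ = 2 ^ (12 * R) := by rw [← pow_mul, mul_comm]
  · have hD' : D ≤ R := by omega
    have hb' : b + 2 * D ≤ 2 * R := by omega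
    have h3 : 12 * R * D ≤ 12 * R * R := Nat.mul_le_mul_left _ hD'
    have h4 : 16 ≤ R ^ 4 := by
      calc 16 = 2 ^ 4 := by norm_num
        _ ≤ R ^ 4 := Nat.pow_le_pow_left hR2 _
    have h5 : R ^ 6 = R ^ 4 * (R * R) := by ring
    have h6 : 2 * R ≤ R * R := Nat.mul_le_mul_right _ hR2
    rw [h5]
    nlinarith [Nat.mul_le_mul_right (R * R) h4]
  · obtain ⟨ε, hε⟩ : ∃ ε, ε = R ^ 6 := ⟨_, rfl⟩
    have hε' : ε ≤ R ^ 6 := hε.le
    rw [← hε]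
    obtain ⟨c, hc⟩ : ∃ c, c = m + D + b := ⟨_, rfl⟩
    have hc' : c ≤ R ^ 1 := e1 (by omega)
    rw [← hc]
    obtain ⟨L, hL⟩ : ∃ L, L = LL k T D c ε B := ⟨_, rfl⟩
    have hL1 : L ≤ R ^ 21 := by
      rw [hL]
      unfold LL
      have a1 : B * B ≤ R ^ 10 := mulb hB hB
      have a2 : ε * T ≤ R ^ 8 := mulb hε' hT
      have a3 : 2 * D * (2 * D) ≤ R ^ 4 := mulb (mulb h2 hD) (mulb h2 hD)
      have a4 : ε * (2 * D) ≤ R ^ 8 := mulb hε' (mulb h2 hD)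
      have a5 : (2 * D * (2 * D) + ε * (2 * D)) * (T * T) ≤ R ^ 13 :=
        mulb (addb hR2 (upb 8 hR2 a3 (by norm_num)) a4) (mulb hT hT)
      have a6 : D + c + B + 1 ≤ R ^ 7 := by
        have b1 : D + c ≤ R ^ 2 := addb hR2 hD hc'
        have b2 : D + c + B ≤ R ^ 6 := addb hR2 (upb 5 hR2 b1 (by norm_num)) hB
        exact addb hR2 b2 (upb 6 hR2 h1 (by norm_num))
      have a7 : 2 * B + 1 ≤ R ^ 7 := addb hR2 (mulb h2 hB) (upb 6 hR2 h1 (by norm_num))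
      have a8 : k * k * T * (D * (2 * B + 1)) ≤ R ^ 12 := mulb (mulb (mulb hk hk) hT) (mulb hD a7)
      have a9 : (D + c + B + 1) * (k * k * T * (D * (2 * B + 1))) ≤ R ^ 19 := mulb a6 a8
      have a10 : 1 + k * B * T ≤ R ^ 9 :=
        addb hR2 (upb 8 hR2 h1 (by norm_num)) (mulb (mulb hk hB) hT)
      have a11 : k + ε * (1 + k * B * T) ≤ R ^ 16 :=
        addb hR2 (upb 15 hR2 hk (by norm_num)) (mulb hε' a10)
      have c1 : B * B + ε * T ≤ R ^ 11 := addb hR2 a1 (upb 10 hR2 a2 (by norm_num))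
      have c2 : B * B + ε * T + ε * T ≤ R ^ 12 := addb hR2 c1 (upb 11 hR2 a2 (by norm_num))
      have c3 : B * B + ε * T + ε * T + (2 * D * (2 * D) + ε * (2 * D)) * (T * T) ≤ R ^ 14 :=
        addb hR2 (upb 13 hR2 c2 (by norm_num)) a5
      have c4 : B * B + ε * T + ε * T + (2 * D * (2 * D) + ε * (2 * D)) * (T * T) +
          (D + c + B + 1) * (k * k * T * (D * (2 * B + 1))) ≤ R ^ 20 :=
        addb hR2 (upb 19 hR2 c3 (by norm_num)) a9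
      exact addb hR2 c4 (upb 20 hR2 a11 (by norm_num))
    rw [← hL]
    have h64' : 64 ≤ R ^ 6 := by
      calc 64 = 2 ^ 6 := by norm_num
        _ ≤ R ^ 6 := Nat.pow_le_pow_left hR2 _
    have h10 : (L + 1) ^ 2 ≤ R ^ 44 := by
      have h11 : L + 1 ≤ R ^ 22 := addb hR2 hL1 (Nat.one_le_pow _ _ (by omega))
      calc (L + 1) ^ 2 ≤ (R ^ 22) ^ 2 := Nat.pow_le_pow_left h11 2
        _ = R ^ 44 := by rw [← pow_mul]
    calc 64 * (L + 1) ^ 2 ≤ R ^ 6 * R ^ 44 := Nat.mul_le_mul h64' h10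
      _ = R ^ 50 := by rw [← pow_add]

end Pool.Agent.Helper12_FV
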